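import Mathlib


/-!
# Perturbations of operators with totally disconnected spectrum: basic facts
-/

set_option autoImplicit false

open Set Filter Topology Metric MeasureTheory

namespace Pool.Agent.H875.QN

variable {X : Type} [NormedAddCommGroup X] [NormedSpace ℂ X]

/-- `T` has a nontrivial closed hyperinvariant subspace -/
def HasHyper (T : X →L[ℂ] X) : Prop :=
  ∃ V : Submodule ℂ X, IsClosed (V : Set X) ∧ V ≠ ⊥ ∧ V ≠ ⊤ ∧
    ∀ Q : X →L[ℂ] X, Q * T = T * Q → ∀ v ∈ V, Q v ∈ V

theorem hyper_of_ker {T e : X →L[ℂ] X} (he : e ≠ 0) {x : X} (hx : x ≠ 0) (hex : e x = 0)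
    (hc : ∀ Q : X →L[ℂ] X, Q * T = T * Q → Q * e = e * Q) : HasHyper T := by
  refine ⟨LinearMap.ker (e : X →ₗ[ℂ] X), ?_, ?_, ?_, ?_⟩
  · have : ((LinearMap.ker (e : X →ₗ[ℂ] X) : Submodule ℂ X) : Set X) = e ⁻¹' {0} := by
      ext v; simp
    rw [this]
    exact isClosed_singleton.preimage e.continuous
  · intro h
    have : x ∈ LinearMap.ker (e : X →ₗ[ℂ] X) := by simpa using hex
    rw [h, Submodule.mem_bot] at this
    exact hx this
  · intro h
    apply he
    ext v
    have : v ∈ LinearMap.ker (e : X →ₗ[ℂ] X) := by rw [h]; trivial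
    simpa using this
  · intro Q hQ v hv
    have h1 : e v = 0 := by simpa using hv
    have h2 : e (Q v) = 0 := by
      have := congrArg (fun Z : X →L[ℂ] X => Z v) (hc Q hQ)
      have h3 : Q (e v) = e (Q v) := this
      rw [← h3, h1, map_zero]
    simpa using h2

/-- a non-scalar operator with an eigenvector has a hyperinvariant subspace -/
theorem hyper_of_eigen {T : X →L[ℂ] X} {c : ℂ} {x : X} (hx : x ≠ 0) (h : T x = c • x)
    (hs : T ≠ c • (1 : X →L[ℂ] X)) : HasHyper T := by
  refine hyper_of_ker (e := T - c • (1 : X →L[ℂ] X)) (sub_ne_zero.2 hs) hx ?_ ?_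
  · simp [h]
  · intro Q hQ
    rw [mul_sub, sub_mul, hQ, mul_smul_comm, smul_mul_assoc, mul_one, one_mul]

variable [CompleteSpace X]

/-- outside of the spectrum of `A` the spectrum of a compact perturbation of `A` consists of
eigenvalues -/
theorem eigen_of_compact (A K : X →L[ℂ] X) (hK : IsCompactOperator K) {c : ℂ}
    (hc : c ∈ resolventSet ℂ A) (hs : c ∈ spectrum ℂ (A + K)) : ∃ x : X, x ≠ 0 ∧ (A + K) x = c • x := by
  have hu : IsUnit (algebraMap ℂ (X →L[ℂ] X) c - A) := by
    simpa [spectrum.mem_resolventSet_iff] using hc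
  set R := resolvent A c with hR
  have h1 : (algebraMap ℂ (X →L[ℂ] X) c - A) * R = 1 := Ring.mul_inverse_cancel _ hu
  have h2 : R * (algebraMap ℂ (X →L[ℂ] X) c - A) = 1 := Ring.inverse_mul_cancel _ hu
  have hRK : IsCompactOperator (R * K) := hK.clm_comp R
  rcases hRK.hasEigenvalue_or_mem_resolventSet (μ := (1 : ℂ)) one_ne_zero with h | h
  · obtain ⟨x, hx⟩ := h.exists_hasEigenvector
    refine ⟨x, hx.2, ?_⟩
    have h3 : R (K x) = x := by
      have := hx.apply_eq_smul
      simpa using this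
    have h4 : K x = (algebraMap ℂ (X →L[ℂ] X) c - A) x := by
      have := congrArg (fun Z : X →L[ℂ] X => Z (K x)) h1
      have h5 : (algebraMap ℂ (X →L[ℂ] X) c - A) (R (K x)) = K x := this
      rw [h3] at h5
      exact h5.symm
    rw [_root_.add_apply, h4]
    simp [Algebra.algebraMap_eq_smul_one]
  · exfalso
    rw [spectrum.mem_resolventSet_iff, map_one] at h
    have h3 : algebraMap ℂ (X →L[ℂ] X) c - (A + K) =
        (algebraMap ℂ (X →L[ℂ] X) c - A) * (1 - R * K) := by
      rw [mul_sub, mul_one, ← mul_assoc, h1, one_mul]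
      abel
    have h4 : IsUnit (algebraMap ℂ (X →L[ℂ] X) c - (A + K)) := by
      rw [h3]
      exact hu.mul h
    exact hs h4

theorem finite_of_compact_unit {D : X →L[ℂ] X} (hD : IsCompactOperator D) (hu : IsUnit D) :
    FiniteDimensional ℂ X := by
  obtain ⟨u, hu⟩ := hu
  have h1 : IsCompactOperator ((↑u⁻¹ : X →L[ℂ] X) * D) := hD.clm_comp _
  have h2 : ((↑u⁻¹ : X →L[ℂ] X) * D) = 1 := by
    rw [← hu]
    exact u.inv_mul
  rw [h2] at h1
  exact FiniteDimensional.of_isCompactOperator_id (𝕜 := ℂ) h1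

theorem compact_pow_sub {T G : X →L[ℂ] X} (h : IsCompactOperator (G - T)) (m : ℕ) :
    IsCompactOperator (G ^ m - T ^ m) := by
  induction m with
  | zero =>
    simp only [pow_zero, sub_self]
    exact isCompactOperator_zero
  | succ m ih =>
    have h1 : G ^ (m + 1) - T ^ (m + 1) = G * (G ^ m - T ^ m) + (G - T) * T ^ m := by
      rw [pow_succ', pow_succ']
      noncomm_ring
    rw [h1]
    have h2 : IsCompactOperator (G * (G ^ m - T ^ m)) := ih.clm_comp G
    have h3 : IsCompactOperator ((G - T) * T ^ m) := h.comp_clm (T ^ m)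
    exact h2.add h3

/-- powers of a quasinilpotent operator -/
theorem pow_small {T : X →L[ℂ] X} (hT : spectrum ℂ T ⊆ {0}) {ε : ℝ} (hε : 0 < ε) :
    ∀ᶠ m : ℕ in atTop, ‖T ^ m‖ ≤ ε ^ m := by
  have hr : spectralRadius ℂ T = 0 := by
    unfold spectralRadius
    simp only [ENNReal.iSup_eq_zero]
    intro k hk
    have := hT hk
    simp only [mem_singleton_iff] at this
    simp [this]
  have h1 := spectrum.pow_nnnorm_pow_one_div_tendsto_nhds_spectralRadius T
  rw [hr] at h1
  have h2 : (0 : ENNReal) < ENNReal.ofReal ε := by simpa using hε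
  filter_upwards [h1.eventually_lt_const h2, eventually_ge_atTop 1] with m hm hm1
  have hm0 : (m : ℝ) ≠ 0 := by positivity
  have h3 : ((‖T ^ m‖₊ : ENNReal) ^ (1 / m : ℝ)) ^ (m : ℝ) ≤ (ENNReal.ofReal ε) ^ (m : ℝ) :=
    ENNReal.rpow_le_rpow hm.le (by positivity)
  rw [← ENNReal.rpow_mul, one_div, inv_mul_cancel₀ hm0, ENNReal.rpow_one, ENNReal.rpow_natCast,
    ← ENNReal.ofReal_pow hε.le] at h3
  have h4 : ENNReal.ofReal ‖T ^ m‖ ≤ ENNReal.ofReal (ε ^ m) := by
    rwa [ofReal_norm, enorm_eq_nnnorm]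
  exact (ENNReal.ofReal_le_ofReal_iff (by positivity)).1 h4

/-- zero is in the spectrum of a compact perturbation of a quasinilpotent operator -/
theorem zero_mem (hX : ¬ FiniteDimensional ℂ X) {T K : X →L[ℂ] X} (hT : spectrum ℂ T ⊆ {0})
    (hK : IsCompactOperator K) : (0 : ℂ) ∈ spectrum ℂ (T + K) := by
  intro h0
  apply hX
  have hu : IsUnit (T + K) := by
    have : IsUnit (algebraMap ℂ (X →L[ℂ] X) 0 - (T + K)) := h0
    rw [map_zero, zero_sub] at this
    exact (IsUnit.neg_iff _).1 this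
  obtain ⟨u, hu⟩ := hu
  set g : X →L[ℂ] X := ↑u⁻¹ with hg
  obtain ⟨m, hm, hm1⟩ := ((pow_small hT (ε := 1 / (2 * (‖g‖ + 1))) (by positivity)).and
    (eventually_ge_atTop 1)).exists
  have h1 : ‖g ^ m * T ^ m‖ < 1 := by
    calc ‖g ^ m * T ^ m‖ ≤ ‖g ^ m‖ * ‖T ^ m‖ := norm_mul_le _ _
      _ ≤ ‖g‖ ^ m * (1 / (2 * (‖g‖ + 1))) ^ m := by
          gcongr
          exact norm_pow_le' g (by omega)
      _ = (‖g‖ * (1 / (2 * (‖g‖ + 1)))) ^ m := by rw [mul_pow]
      _ < 1 := by
          apply pow_lt_one₀ (by positivity) _ (by omega)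
          rw [mul_one_div, div_lt_one (by positivity)]
          have := norm_nonneg g
          linarith
  have h2 : IsUnit (1 - g ^ m * T ^ m) := isUnit_one_sub_of_norm_lt_one h1
  refine finite_of_compact_unit ?_ h2
  have h3 : IsCompactOperator ((T + K) ^ m - T ^ m) := by
    apply compact_pow_sub
    have : T + K - T = K := by abel
    rw [this]
    exact hK
  have h4 : IsCompactOperator (g ^ m * ((T + K) ^ m - T ^ m)) := h3.clm_comp _
  have h5 : g ^ m * ((T + K) ^ m - T ^ m) = 1 - g ^ m * T ^ m := by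
    rw [mul_sub, ← hu, hg]
    congr 1
    rw [← Units.val_pow_eq_pow_val, ← Units.val_pow_eq_pow_val, ← Units.val_mul, inv_pow,
      inv_mul_cancel, Units.val_one]
  rwa [h5] at h4

end Pool.Agent.H875.QN
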