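import Pool.Agent.H875.QN.Basic
import Pool.Agent.R283.Riesz

/-!
# Operators with a disconnected spectrum have hyperinvariant subspaces
-/

set_option autoImplicit false

open Set Filter Topology Metric MeasureTheory

namespace Pool.Agent.H875.QN

open Pool.Agent.R283.Riesz

variable {X : Type} [NormedAddCommGroup X] [NormedSpace ℂ X] [CompleteSpace X]

omit [CompleteSpace X] in
theorem commute_res {T Q : X →L[ℂ] X} (h : Q * T = T * Q) (z : ℂ) :
    Q * resolvent T z = resolvent T z * Q := by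
  by_cases hz : z ∈ resolventSet ℂ T
  · have hu : IsUnit (algebraMap ℂ (X →L[ℂ] X) z - T) := hz
    have h1 : (algebraMap ℂ (X →L[ℂ] X) z - T) * resolvent T z = 1 := Ring.mul_inverse_cancel _ hu
    have h2 : resolvent T z * (algebraMap ℂ (X →L[ℂ] X) z - T) = 1 := Ring.inverse_mul_cancel _ hu
    have h3 : Q * (algebraMap ℂ (X →L[ℂ] X) z - T) = (algebraMap ℂ (X →L[ℂ] X) z - T) * Q := by
      rw [mul_sub, sub_mul, h, Algebra.commutes]
    calc Q * resolvent T z
        = (resolvent T z * (algebraMap ℂ (X →L[ℂ] X) z - T)) * Q * resolvent T z := by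
          rw [h2, one_mul]
      _ = resolvent T z * ((algebraMap ℂ (X →L[ℂ] X) z - T) * Q) * resolvent T z := by
          noncomm_ring
      _ = resolvent T z * (Q * (algebraMap ℂ (X →L[ℂ] X) z - T)) * resolvent T z := by rw [h3]
      _ = resolvent T z * Q * ((algebraMap ℂ (X →L[ℂ] X) z - T) * resolvent T z) := by
          noncomm_ring
      _ = resolvent T z * Q := by rw [h1, mul_one]
  · have : resolvent T z = 0 := spectrum.resolvent_zero_of_mem_spectrum hz
    rw [this, mul_zero, zero_mul]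

theorem commute_elt' {T Q : X →L[ℂ] X} {χ : ℂ → ℂ} (hχ : ContDiff ℝ 1 χ)
    (hc : HasCompactSupport χ) (h : tsupport (dbar χ) ⊆ resolventSet ℂ T)
    (hQ : Q * T = T * Q) : Q * elt T χ = elt T χ * Q := by
  have hi := integrable_elt hχ hc h
  have e1 : Q * elt T χ = ∫ z, Q * (dbar χ z • resolvent T z) :=
    ((ContinuousLinearMap.mul ℂ (X →L[ℂ] X) Q).integral_comp_comm hi).symm
  have e2 : elt T χ * Q = ∫ z, (dbar χ z • resolvent T z) * Q :=
    (((ContinuousLinearMap.mul ℂ (X →L[ℂ] X)).flip Q).integral_comp_comm hi).symm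
  rw [e1, e2]
  refine integral_congr_ae (Eventually.of_forall fun z => ?_)
  show Q * (dbar χ z • resolvent T z) = (dbar χ z • resolvent T z) * Q
  rw [mul_smul_comm, smul_mul_assoc, commute_res hQ z]

theorem hyper_of_split (T : X →L[ℂ] X) {A B : Set ℂ} (hA : IsClosed A) (hB : IsClosed B)
    (hAB : Disjoint A B) (hσ : spectrum ℂ T = A ∪ B) (hAne : A.Nonempty) (hBne : B.Nonempty) :
    HasHyper T := by
  have hcomp : IsCompact (spectrum ℂ T) := spectrum.isCompact T
  have hAc : IsCompact A := hcomp.of_isClosed_subset hA (hσ ▸ subset_union_left)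
  have hBc : IsCompact B := hcomp.of_isClosed_subset hB (hσ ▸ subset_union_right)
  obtain ⟨χ₁, χ₂, c1, c2, k1, k2, hd, o1, o2⟩ := exists_cutoffs hAc hBc hAB
  have s1 : tsupport (dbar χ₁) ⊆ resolventSet ℂ T := by
    intro z hz
    by_contra hn
    have hz' : z ∈ spectrum ℂ T := hn
    rw [hσ] at hz'
    rcases hz' with hz' | hz'
    · exact notMem_tsupport_dbar (o1 z hz') hz
    · refine Set.disjoint_left.1 hd (tsupport_dbar_subset hz) ?_
      refine subset_tsupport _ ?_
      rw [Function.mem_support, (o2 z hz').eq_of_nhds]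
      exact one_ne_zero
  have s2 : tsupport (dbar χ₂) ⊆ resolventSet ℂ T := by
    intro z hz
    by_contra hn
    have hz' : z ∈ spectrum ℂ T := hn
    rw [hσ] at hz'
    rcases hz' with hz' | hz'
    · refine Set.disjoint_left.1 hd ?_ (tsupport_dbar_subset hz)
      refine subset_tsupport _ ?_
      rw [Function.mem_support, (o1 z hz').eq_of_nhds]
      exact one_ne_zero
    · exact notMem_tsupport_dbar (o2 z hz') hz
  obtain ⟨μ₁, hμ₁⟩ := hAne
  obtain ⟨μ₂, hμ₂⟩ := hBne
  have n1 : elt T χ₁ ≠ 0 := elt_ne_zero c1 k1 s1 (hσ ▸ Or.inl hμ₁) (o1 μ₁ hμ₁)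
  have n2 : elt T χ₂ ≠ 0 := elt_ne_zero c2 k2 s2 (hσ ▸ Or.inr hμ₂) (o2 μ₂ hμ₂)
  have h12 : elt T χ₁ * elt T χ₂ = 0 := elt_mul_elt c1 c2 k1 k2 s1 s2 hd
  obtain ⟨v, hv⟩ : ∃ v, elt T χ₂ v ≠ 0 := by
    by_contra hcon
    push Not at hcon
    exact n2 (ContinuousLinearMap.ext hcon)
  refine hyper_of_ker n1 hv ?_ (fun Q hQ => commute_elt' c1 k1 s1 hQ)
  exact congrArg (fun Z : X →L[ℂ] X => Z v) h12

/-- an operator whose spectrum is totally disconnected and has at least two points has a
hyperinvariant subspace -/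
theorem hyper_of_td (T : X →L[ℂ] X) (hs : IsTotallyDisconnected (spectrum ℂ T)) {c c' : ℂ}
    (hc : c ∈ spectrum ℂ T) (hc' : c' ∈ spectrum ℂ T) (hne : c ≠ c') : HasHyper T := by
  set S : Set ℂ := spectrum ℂ T with hS
  have : CompactSpace S := isCompact_iff_compactSpace.1 (spectrum.isCompact T)
  have : TotallyDisconnectedSpace S := totallyDisconnectedSpace_subtype_iff.2 hs
  have : TotallySeparatedSpace S := inferInstance
  have hne' : (⟨c, hc⟩ : S) ≠ ⟨c', hc'⟩ := fun h => hne (congrArg Subtype.val h)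
  obtain ⟨U, hU, hcU, hcU'⟩ := exists_isClopen_of_totally_separated hne'
  have h1 : IsClosed (Subtype.val '' U : Set ℂ) :=
    (hU.isClosed.isCompact.image continuous_subtype_val).isClosed
  have h2 : IsClosed (Subtype.val '' Uᶜ : Set ℂ) :=
    (hU.compl.isClosed.isCompact.image continuous_subtype_val).isClosed
  refine hyper_of_split T h1 h2 ?_ ?_ ⟨c, ⟨c, hc⟩, hcU, rfl⟩ ⟨c', ⟨c', hc'⟩, hcU', rfl⟩
  · rw [Set.disjoint_image_iff Subtype.val_injective]
    exact disjoint_compl_right
  · rw [← Set.image_union, Set.union_compl_self, Set.image_univ, Subtype.range_coe]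

/-- **reduction**: if `A` has a totally disconnected spectrum and `K` is compact, and `A + K` has no
hyperinvariant subspace, then the spectrum of `A + K` has exactly one point -/
theorem single_of_not_hyper (hX : ¬ FiniteDimensional ℂ X) (A K : X →L[ℂ] X)
    (hA : IsTotallyDisconnected (spectrum ℂ A)) (hK : IsCompactOperator K)
    (h : ¬ HasHyper (A + K)) : ∃ c : ℂ, spectrum ℂ (A + K) = {c} := by
  have : Nontrivial X := by
    by_contra hcon
    rw [not_nontrivial_iff_subsingleton] at hcon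
    exact hX inferInstance
  obtain ⟨c, hc⟩ := spectrum.nonempty (A + K)
  refine ⟨c, ?_⟩
  by_cases hsc : ∃ d : ℂ, A + K = d • (1 : X →L[ℂ] X)
  · obtain ⟨d, hd⟩ := hsc
    have h1 : spectrum ℂ (A + K) = {d} := by
      rw [hd, ← Algebra.algebraMap_eq_smul_one]
      exact spectrum.scalar_eq d
    rw [h1] at hc ⊢
    rw [mem_singleton_iff.1 hc]
  · push Not at hsc
    have h1 : spectrum ℂ (A + K) ⊆ spectrum ℂ A := by
      intro z hz
      by_contra hz'
      obtain ⟨x, hx, hx2⟩ := eigen_of_compact A K hK (c := z) (by simpa [spectrum] using hz') hz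
      exact h (hyper_of_eigen hx hx2 (hsc z))
    refine Set.Subset.antisymm ?_ (by simpa using hc)
    intro z hz
    by_contra hne
    exact h (hyper_of_td (A + K) (fun t ht => hA t (ht.trans h1)) hz hc hne)

omit [CompleteSpace X] in
/-- quasinilpotence from a one-point spectrum -/
theorem spec_sub (A : X →L[ℂ] X) {c : ℂ} (h : spectrum ℂ A = {c}) :
    spectrum ℂ (A - c • (1 : X →L[ℂ] X)) = {0} := by
  have h1 := spectrum.sub_singleton_eq A c
  rw [← Algebra.algebraMap_eq_smul_one, ← h1, h]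
  simp

end Pool.Agent.H875.QN
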