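import Pool.Agent.H875.QN.Pot
import Pool.Agent.H875.QN.Split

/-!
# The set of the couplings with a quasinilpotent sum
-/

set_option autoImplicit false

open MeasureTheory Set Filter Topology Metric

namespace Pool.Agent.H875.QN

variable {X : Type} [NormedAddCommGroup X] [NormedSpace ℂ X]

theorem pow_poly (T K : X →L[ℂ] X) (m : ℕ) :
    ∃ C : ℕ → (X →L[ℂ] X), (∀ κ : ℂ, (T + κ • K) ^ m = ∑ j ∈ Finset.range (m + 1), κ ^ j • C j) ∧
      C m = K ^ m ∧ ∀ j, m < j → C j = 0 := by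
  induction m with
  | zero =>
    refine ⟨fun j => if j = 0 then 1 else 0, ?_, ?_, ?_⟩
    · intro κ
      simp
    · simp
    · intro j hj
      simp [hj.ne']
  | succ m ih =>
    obtain ⟨C, h1, h2, h3⟩ := ih
    refine ⟨fun j => T * C j + (if j = 0 then 0 else K * C (j - 1)), ?_, ?_, ?_⟩
    · intro κ
      rw [pow_succ', h1, add_mul, Finset.mul_sum, Finset.mul_sum]
      simp only [smul_add, Finset.sum_add_distrib]
      congr 1
      · rw [Finset.sum_range_succ _ (m + 1), h3 (m + 1) (by omega), mul_zero, smul_zero, add_zero]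
        refine Finset.sum_congr rfl fun j _ => ?_
        rw [mul_smul_comm]
      · rw [Finset.sum_range_succ' _ (m + 1)]
        simp only [Nat.add_one_ne_zero, if_false, Nat.add_sub_cancel, if_true, smul_zero, add_zero]
        refine Finset.sum_congr rfl fun j _ => ?_
        rw [smul_mul_smul_comm, pow_succ, mul_comm]
    · simp only [Nat.add_one_ne_zero, if_false, Nat.add_sub_cancel]
      rw [h3 (m + 1) (by omega), mul_zero, zero_add, h2, pow_succ']
    · intro j hj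
      have h4 : j ≠ 0 := by omega
      simp only [h4, if_false]
      rw [h3 j (by omega), h3 (j - 1) (by omega), mul_zero, mul_zero, add_zero]

/-- the scalar polynomials -/
theorem pow_scalar (T K : X →L[ℂ] X) (φ : (X →L[ℂ] X) →L[ℂ] ℂ) (m : ℕ) :
    ∃ p : Polynomial ℂ, p.natDegree ≤ m ∧ (∀ κ : ℂ, p.eval κ = φ ((T + κ • K) ^ m)) ∧
      p.coeff m = φ (K ^ m) := by
  obtain ⟨C, h1, h2, h3⟩ := pow_poly T K m
  refine ⟨∑ j ∈ Finset.range (m + 1), Polynomial.C (φ (C j)) * Polynomial.X ^ j, ?_, ?_, ?_⟩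
  · apply Polynomial.natDegree_sum_le_of_forall_le
    intro j hj
    refine (Polynomial.natDegree_C_mul_X_pow_le _ _).trans ?_
    have := Finset.mem_range.1 hj
    omega
  · intro κ
    rw [h1, map_sum, Polynomial.eval_finsetSum]
    refine Finset.sum_congr rfl fun j _ => ?_
    rw [Polynomial.eval_mul, Polynomial.eval_C, Polynomial.eval_pow, Polynomial.eval_X, map_smul,
      smul_eq_mul, mul_comm]
  · rw [Polynomial.finsetSum_coeff, Finset.sum_eq_single m]
    · simp [h2]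
    · intro j _ hj
      simp [Polynomial.coeff_C_mul, Polynomial.coeff_X_pow, hj.symm]
    · intro h
      exact absurd (Finset.mem_range.2 (by omega)) h

/-- the couplings at which the powers are small from `N` on -/
def EE (T K : X →L[ℂ] X) (R ε : ℝ) (N : ℕ) : Set ℂ :=
  closedBall 0 R ∩ ⋂ m : ℕ, ⋂ _ : N ≤ m, {κ : ℂ | ‖(T + κ • K) ^ m‖ ≤ ε ^ m}

theorem EE_closed (T K : X →L[ℂ] X) (R ε : ℝ) (N : ℕ) : IsClosed (EE T K R ε N) := by
  refine isClosed_closedBall.inter ?_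
  refine isClosed_iInter fun m => isClosed_iInter fun _ => ?_
  refine isClosed_le ?_ continuous_const
  fun_prop

theorem EE_mono (T K : X →L[ℂ] X) (R ε : ℝ) : Monotone (EE T K R ε) := by
  intro N N' h κ hκ
  refine ⟨hκ.1, ?_⟩
  simp only [mem_iInter]
  intro m hm
  have := hκ.2
  simp only [mem_iInter] at this
  exact this m (h.trans hm)

variable [CompleteSpace X]

theorem key (T K : X →L[ℂ] X) (μ : Measure ℂ) (hat : ∀ s : ℂ, μ {s} = 0) (R : ℝ) (hR0 : 0 ≤ R)
    (hfin : μ (closedBall 0 R) ≠ ⊤) (C : ℝ) (hC : 0 ≤ C)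
    (hpot : ∀ s : ℂ, ∫⁻ t in closedBall (0:ℂ) R, ENNReal.ofReal (Real.posLog ‖t - s‖⁻¹) ∂μ ≤
      ENNReal.ofReal C)
    (hpos : μ ({κ : ℂ | spectrum ℂ (T + κ • K) ⊆ {0}} ∩ closedBall 0 R) ≠ 0) :
    (∀ κ : ℂ, spectrum ℂ (T + κ • K) ⊆ {0}) ∧ spectrum ℂ K ⊆ {0} := by
  rcases subsingleton_or_nontrivial X with hs | hs
  · have : Subsingleton (X →L[ℂ] X) := ⟨fun a b => by ext x; exact Subsingleton.elim _ _⟩
    refine ⟨fun κ => ?_, ?_⟩
    · intro z hz
      exact absurd (isUnit_of_subsingleton _) hz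
    · intro z hz
      exact absurd (isUnit_of_subsingleton _) hz
  set E : Set ℂ := {κ : ℂ | spectrum ℂ (T + κ • K) ⊆ {0}} ∩ closedBall 0 R with hE
  have hEfin : μ E ≠ ⊤ := ne_top_of_le_ne_top hfin (measure_mono inter_subset_right)
  set b : ENNReal := μ E / 2 with hb
  have hb0 : b ≠ 0 := by
    rw [hb]
    simp only [ne_eq, ENNReal.div_eq_zero_iff, hpos, ENNReal.ofNat_ne_top, or_self, not_false_eq_true]
  have hbt : b ≠ ⊤ := ENNReal.div_ne_top hEfin (by norm_num)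
  have hbE : b < μ E := ENNReal.half_lt_self hpos hEfin
  -- for every `ε` a set of measure at least `b`
  have hN : ∀ ε : ℝ, 0 < ε → ∃ N, b < μ (EE T K R ε N) := by
    intro ε hε
    have h1 : E ⊆ ⋃ N, EE T K R ε N := by
      rintro κ ⟨h2, h3⟩
      obtain ⟨N, hN⟩ := Filter.eventually_atTop.1 (pow_small h2 hε)
      rw [mem_iUnion]
      refine ⟨N, h3, ?_⟩
      simp only [mem_iInter]
      exact fun m hm => hN m hm
    have h4 : μ (⋃ N, EE T K R ε N) = ⨆ N, μ (EE T K R ε N) := (EE_mono T K R ε).measure_iUnion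
    have h5 : b < ⨆ N, μ (EE T K R ε N) := by
      rw [← h4]
      exact hbE.trans_le (measure_mono h1)
    exact lt_iSup_iff.1 h5
  set a₀ : ℝ := b.toReal with ha₀
  have ha₀0 : 0 < a₀ := ENNReal.toReal_pos hb0 hbt
  have main : ∀ ε : ℝ, 0 < ε → ∃ N, ∀ m, N ≤ m →
      (∀ z : ℂ, ‖(T + z • K) ^ m‖ ≤ (Real.exp (C / a₀ + Real.log (‖z‖ + R + 1)) * ε) ^ m) ∧
      ‖K ^ m‖ ≤ (Real.exp (C / a₀) * ε) ^ m := by
    intro ε hε
    obtain ⟨N, hN⟩ := hN ε hε
    refine ⟨N, fun m hm => ?_⟩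
    set A : Set ℂ := EE T K R ε N with hA
    have hAR : A ⊆ closedBall 0 R := inter_subset_left
    have hAm : MeasurableSet A := (EE_closed T K R ε N).measurableSet
    set ν : Measure ℂ := μ.restrict A with hν
    have hAt : μ A ≠ ⊤ := ne_top_of_le_ne_top hfin (measure_mono hAR)
    have : IsFiniteMeasure ν := ⟨by rw [hν, Measure.restrict_apply_univ]; exact hAt.lt_top⟩
    have hνu : ν.real univ = (μ A).toReal := by
      rw [measureReal_def, hν, Measure.restrict_apply_univ]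
    have ha : a₀ < ν.real univ := by
      rw [hνu, ha₀]
      exact (ENNReal.toReal_lt_toReal hbt hAt).2 hN
    have hR : ∀ᵐ t ∂ν, ‖t‖ ≤ R := by
      rw [hν]
      filter_upwards [ae_restrict_mem hAm] with t ht
      exact mem_closedBall_zero_iff.1 (hAR ht)
    have hat' : ∀ ρ : ℂ, ν {ρ} = 0 := fun ρ =>
      le_antisymm ((Measure.restrict_apply_le A {ρ}).trans (hat ρ).le) zero_le
    have hpot' : ∀ ρ : ℂ, ∫⁻ t, ENNReal.ofReal (Real.posLog ‖t - ρ‖⁻¹) ∂ν ≤ ENNReal.ofReal C :=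
      fun ρ => (lintegral_mono_set hAR).trans (hpot ρ)
    have hCa : C / ν.real univ ≤ C / a₀ := div_le_div_of_nonneg_left hC ha₀0 ha.le
    have hpb := fun (φ : (X →L[ℂ] X) →L[ℂ] ℂ) (hφ : ‖φ‖ ≤ 1) (p : Polynomial ℂ)
        (hp1 : p.natDegree ≤ m) (hp2 : ∀ κ : ℂ, p.eval κ = φ ((T + κ • K) ^ m)) =>
      poly_bound (ν := ν) hR0 hR hat' hC hpot' (ha₀0.trans ha) p m hp1 hε (by
        rw [hν]
        filter_upwards [ae_restrict_mem hAm] with t ht
        rw [hp2]
        have h1 := ht.2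
        simp only [mem_iInter] at h1
        calc ‖φ ((T + t • K) ^ m)‖ ≤ ‖φ‖ * ‖(T + t • K) ^ m‖ := φ.le_opNorm _
          _ ≤ 1 * ε ^ m := mul_le_mul hφ (h1 m hm) (norm_nonneg _) zero_le_one
          _ = ε ^ m := one_mul _)
    constructor
    · intro z
      obtain ⟨φ, hφ1, hφ2⟩ := exists_dual_vector'' ℂ ((T + z • K) ^ m)
      obtain ⟨p, hp1, hp2, hp3⟩ := pow_scalar T K φ m
      have h1 := (hpb φ hφ1 p hp1 hp2).1 z
      rw [hp2, hφ2] at h1
      refine (show ‖(T + z • K) ^ m‖ ≤ _ from by simpa using h1).trans ?_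
      gcongr
      rw [add_div, mul_div_cancel_left₀ _ (ha₀0.trans ha).ne']
      linarith
    · obtain ⟨φ, hφ1, hφ2⟩ := exists_dual_vector'' ℂ (K ^ m)
      obtain ⟨p, hp1, hp2, hp3⟩ := pow_scalar T K φ m
      have h1 := (hpb φ hφ1 p hp1 hp2).2
      rw [hp3, hφ2] at h1
      refine (show ‖K ^ m‖ ≤ _ from by simpa using h1).trans ?_
      gcongr
  have fin : ∀ (S : X →L[ℂ] X) (D : ℝ), 0 < D → (∀ ε : ℝ, 0 < ε → ∃ N, ∀ m, N ≤ m →
      ‖S ^ m‖ ≤ (D * ε) ^ m) → spectrum ℂ S ⊆ {0} := by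
    intro S D hD h z hz
    rw [mem_singleton_iff]
    by_contra hz0
    have hz1 : 0 < ‖z‖ := norm_pos_iff.2 hz0
    obtain ⟨N, hN⟩ := h (‖z‖ / (2 * D)) (by positivity)
    have h1 := hN (N + 1) (by omega)
    have h2 : z ^ (N + 1) ∈ spectrum ℂ (S ^ (N + 1)) := spectrum.pow_mem_pow S (N + 1) hz
    have h3 := spectrum.norm_le_norm_of_mem h2
    rw [norm_pow] at h3
    have h4 : D * (‖z‖ / (2 * D)) = ‖z‖ / 2 := by field_simp
    rw [h4] at h1
    have h5 : (‖z‖ / 2) ^ (N + 1) < ‖z‖ ^ (N + 1) :=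
      pow_lt_pow_left₀ (by linarith) (by positivity) (by omega)
    linarith
  constructor
  · intro κ
    refine fin _ (Real.exp (C / a₀ + Real.log (‖κ‖ + R + 1))) (Real.exp_pos _) fun ε hε => ?_
    obtain ⟨N, hN⟩ := main ε hε
    exact ⟨N, fun m hm => (hN m hm).1 κ⟩
  · refine fin _ (Real.exp (C / a₀)) (Real.exp_pos _) fun ε hε => ?_
    obtain ⟨N, hN⟩ := main ε hε
    exact ⟨N, fun m hm => (hN m hm).2⟩

end Pool.Agent.H875.QN
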