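import Pool.Agent.H875.QN.Disc
import Pool.Agent.H875.QN.Cpt
import Pool.Agent.TH966.HD.Energy

/-!
# The set of the couplings with a quasinilpotent sum is closed, and its dimension
-/

set_option autoImplicit false

open MeasureTheory Set Filter Topology Metric

namespace Pool.Agent.H875.QN

variable {X : Type} [NormedAddCommGroup X] [NormedSpace ℂ X] [CompleteSpace X]

theorem QC_closed (T : X →L[ℂ] X) :
    IsClosed {L : X →L[ℂ] X | IsCompactOperator L ∧ spectrum ℂ (T + L) ⊆ {0}} := by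
  rw [← isOpen_compl_iff, isOpen_iff_eventually]
  intro L₁ hL₁
  by_contra hcon
  have hfreq : ∃ᶠ L in 𝓝 L₁, L ∈ {L : X →L[ℂ] X | IsCompactOperator L ∧ spectrum ℂ (T + L) ⊆ {0}} := by
    intro h
    apply hcon
    filter_upwards [h] with κ hκ
    exact hκ
  have hLc : IsCompactOperator L₁ := by
    have h1 : IsClosed {f : X →L[ℂ] X | IsCompactOperator f} := isClosed_setOfPred_isCompactOperator
    exact h1.mem_of_frequently_of_tendsto (hfreq.mono fun L hL => hL.1) tendsto_id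
  have hspec : ¬ spectrum ℂ (T + L₁) ⊆ {0} := fun h => hL₁ ⟨hLc, h⟩
  obtain ⟨L₀, hL₀c, hL₀⟩ := hfreq.exists
  -- a nonzero point of the spectrum
  have hne : ∃ l ∈ spectrum ℂ (T + L₁), l ≠ 0 := by
    by_contra h
    push Not at h
    exact hspec (fun z hz => h z hz)
  obtain ⟨l, hl, hl0⟩ := hne
  have hl1 : 0 < ‖l‖ := norm_pos_iff.2 hl0
  have hB : T + L₁ = (T + L₀) + (L₁ - L₀) := by
    abel
  have hKs : IsCompactOperator (L₁ - L₀) := hLc.sub hL₀c
  have hfin := finite_spec (K := L₁ - L₀) hL₀ hKs (r := ‖l‖ / 2) (by positivity)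
  rw [← hB] at hfin
  -- a circle
  obtain ⟨ρ, hρ, hρF⟩ : ∃ ρ ∈ Ioo 0 (‖l‖ / 2), ρ ∉
      (fun z => ‖z - l‖) '' (spectrum ℂ (T + L₁) ∩ {z | ‖l‖ / 2 ≤ ‖z‖}) := by
    have h1 : (Ioo 0 (‖l‖ / 2)).Infinite := Ioo_infinite (by positivity)
    obtain ⟨ρ, h2, h3⟩ := (h1.sdiff (hfin.image (fun z => ‖z - l‖))).nonempty
    exact ⟨ρ, h2, h3⟩
  have hsph : ∀ z ∈ sphere l ρ, z ∈ resolventSet ℂ (T + L₁) := by
    intro z hz
    by_contra h
    apply hρF
    refine ⟨z, ⟨h, ?_⟩, by rwa [mem_sphere_iff_norm] at hz⟩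
    rw [mem_sphere_iff_norm] at hz
    have h1 := norm_sub_norm_le l z
    rw [norm_sub_rev] at h1
    show ‖l‖ / 2 ≤ ‖z‖
    linarith [hρ.2]
  let g : (X →L[ℂ] X) → ℂ → (X →L[ℂ] X) := fun L z => resolvent (T + L) z
  have hcont : ∀ z ∈ sphere l ρ, ContinuousAt (fun p : (X →L[ℂ] X) × ℂ => g p.1 p.2) (L₁, z) := by
    intro z hz
    have h1 : IsUnit (algebraMap ℂ (X →L[ℂ] X) z - (T + L₁)) := hsph z hz
    obtain ⟨u, hu⟩ := h1
    have h2 : ContinuousAt (Ring.inverse : (X →L[ℂ] X) → (X →L[ℂ] X))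
        (algebraMap ℂ (X →L[ℂ] X) z - (T + L₁)) := by
      rw [← hu]
      exact NormedRing.inverse_continuousAt u
    have h3 : Continuous (fun p : (X →L[ℂ] X) × ℂ =>
        algebraMap ℂ (X →L[ℂ] X) p.2 - (T + p.1)) := by
      simp only [Algebra.algebraMap_eq_smul_one]
      fun_prop
    exact ContinuousAt.comp
      (f := fun p : (X →L[ℂ] X) × ℂ => algebraMap ℂ (X →L[ℂ] X) p.2 - (T + p.1))
      (x := (L₁, z)) h2 h3.continuousAt
  have hcon1 : ContinuousOn (fun z => ‖g L₁ z‖) (sphere l ρ) := by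
    intro z hz
    apply ContinuousAt.continuousWithinAt
    have h1 : ContinuousAt (fun z : ℂ => ((L₁, z) : (X →L[ℂ] X) × ℂ)) z := by fun_prop
    exact (ContinuousAt.comp (f := fun z : ℂ => ((L₁, z) : (X →L[ℂ] X) × ℂ))
      (g := fun p : (X →L[ℂ] X) × ℂ => g p.1 p.2) (hcont z hz) h1).norm
  obtain ⟨C, hC⟩ := (isCompact_sphere l ρ).bddAbove_image hcon1
  have hM : ∀ z ∈ sphere l ρ, ‖g L₁ z‖ ≤ C := fun z hz => hC ⟨z, hz, rfl⟩
  have hC0 : 0 ≤ C := by
    have hρ0 := hρ.1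
    have : l + ρ ∈ sphere l ρ := by
      rw [mem_sphere_iff_norm, add_sub_cancel_left, Complex.norm_real, Real.norm_of_nonneg hρ0.le]
    exact (norm_nonneg _).trans (hM _ this)
  have hev : ∀ᶠ L in 𝓝 L₁, ∀ z ∈ sphere l ρ, ‖g L z‖ ≤ C + 1 := by
    apply (isCompact_sphere l ρ).eventually_forall_of_forall_eventually
    intro z hz
    have h1 := (hcont z hz).norm
    have h2 : ‖g L₁ z‖ < C + 1 := by
      have := hM z hz
      linarith
    filter_upwards [h1.eventually_lt_const h2] with p hp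
    exact hp.le
  have hev2 : ∀ᶠ L in 𝓝 L₁, ‖L - L₁‖ * (C + 1) < 1 := by
    have h1 : Continuous (fun L : X →L[ℂ] X => ‖L - L₁‖ * (C + 1)) := by fun_prop
    have h2 := h1.tendsto L₁
    simp only [sub_self, norm_zero, zero_mul] at h2
    exact h2.eventually_lt_const one_pos
  obtain ⟨L, ⟨hLc', hL⟩, h1, h2⟩ := (hfreq.and_eventually (hev.and hev2)).exists
  -- the maximum principle for the resolvent of a quasinilpotent operator
  have hres : ∀ z ∈ closedBall l ρ, z ∈ resolventSet ℂ (T + L) := by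
    intro z hz
    by_contra h
    have h3 : z = 0 := by simpa using hL h
    rw [h3, mem_closedBall_iff_norm, zero_sub, norm_neg] at hz
    linarith [hρ.2]
  have hmax : ‖g L l‖ ≤ C + 1 := by
    have hρ0 : ρ ≠ 0 := hρ.1.ne'
    have hd : DiffContOnCl ℂ (g L) (ball l ρ) := by
      have h3 : DifferentiableOn ℂ (g L) (closedBall l ρ) := fun z hz =>
        (spectrum.hasDerivAt_resolvent_const_left (hres z hz)).differentiableAt.differentiableWithinAt
      exact h3.diffContOnCl_ball subset_rfl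
    apply Complex.norm_le_of_forall_mem_frontier_norm_le isBounded_ball hd
    · intro z hz
      rw [frontier_ball _ hρ0] at hz
      exact h1 z hz
    · exact subset_closure (mem_ball_self hρ.1)
  have hu : IsUnit (algebraMap ℂ (X →L[ℂ] X) l - (T + L)) :=
    hres l (mem_closedBall_self hρ.1.le)
  have h3 : algebraMap ℂ (X →L[ℂ] X) l - (T + L₁) =
      (algebraMap ℂ (X →L[ℂ] X) l - (T + L)) * (1 - g L l * (-(L - L₁))) := by
    have h4 : (algebraMap ℂ (X →L[ℂ] X) l - (T + L)) * g L l = 1 := Ring.mul_inverse_cancel _ hu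
    rw [mul_sub, mul_one, ← mul_assoc, h4, one_mul]
    abel
  apply hl
  show IsUnit (algebraMap ℂ (X →L[ℂ] X) l - (T + L₁))
  rw [h3]
  refine hu.mul (isUnit_one_sub_of_norm_lt_one ?_)
  calc ‖g L l * (-(L - L₁))‖ ≤ ‖g L l‖ * ‖-(L - L₁)‖ := norm_mul_le _ _
    _ = ‖L - L₁‖ * ‖g L l‖ := by rw [norm_neg, mul_comm]
    _ ≤ ‖L - L₁‖ * (C + 1) := mul_le_mul_of_nonneg_left hmax (norm_nonneg _)
    _ < 1 := h2

theorem QQ_closed (T K : X →L[ℂ] X) (hK : IsCompactOperator K) :
    IsClosed {κ : ℂ | spectrum ℂ (T + κ • K) ⊆ {0}} := by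
  have h1 : Continuous (fun κ : ℂ => κ • K) := by fun_prop
  have h2 := (QC_closed T).preimage h1
  have h3 : (fun κ : ℂ => κ • K) ⁻¹' {L : X →L[ℂ] X | IsCompactOperator L ∧
      spectrum ℂ (T + L) ⊆ {0}} = {κ : ℂ | spectrum ℂ (T + κ • K) ⊆ {0}} := by
    ext κ
    simp only [mem_preimage, mem_setOf_eq, and_iff_right_iff_imp]
    intro _
    exact hK.smul κ
  rwa [h3] at h2

/-- a Frostman measure has a bounded logarithmic potential -/
theorem pot_of_frostman (ν : Measure ℂ) {s C : ℝ} (hs : 0 < s) (hC : 0 < C)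
    (h : ∀ (x : ℂ) (r : ℝ), 0 < r → ν (closedBall x r) ≤ ENNReal.ofReal (C * r ^ s)) :
    (∀ ρ : ℂ, ν {ρ} = 0) ∧
    ∀ ρ : ℂ, ∫⁻ t, ENNReal.ofReal (Real.posLog ‖t - ρ‖⁻¹) ∂ν ≤ ENNReal.ofReal (C / s) := by
  constructor
  · intro ρ
    have h1 : Tendsto (fun r : ℝ => ENNReal.ofReal (C * r ^ s)) (𝓝[>] 0) (𝓝 0) := by
      have h2 : Tendsto (fun r : ℝ => C * r ^ s) (𝓝[>] 0) (𝓝 0) := by
        have h3 : ContinuousAt (fun r : ℝ => C * r ^ s) 0 :=
          (Real.continuousAt_rpow_const 0 s (Or.inr hs.le)).const_mul C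
        have h4 := h3.tendsto.mono_left (nhdsWithin_le_nhds (s := Ioi 0))
        simpa [Real.zero_rpow hs.ne'] using h4
      have := (ENNReal.continuous_ofReal.tendsto 0).comp h2
      rw [ENNReal.ofReal_zero] at this
      exact this
    have h5 : ∀ᶠ r : ℝ in 𝓝[>] 0, ν {ρ} ≤ ENNReal.ofReal (C * r ^ s) := by
      filter_upwards [self_mem_nhdsWithin] with r hr
      refine (measure_mono ?_).trans (h ρ r hr)
      rw [singleton_subset_iff]
      exact mem_closedBall_self (le_of_lt hr)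
    exact le_antisymm (ge_of_tendsto h1 h5) zero_le
  · intro ρ
    have hm : Measurable (fun t : ℂ => Real.posLog ‖t - ρ‖⁻¹) :=
      Real.continuous_posLog.measurable.comp (by fun_prop)
    rw [lintegral_eq_lintegral_meas_lt ν (Eventually.of_forall fun t => Real.posLog_nonneg)
      hm.aemeasurable]
    have h1 : ∀ u ∈ Ioi (0:ℝ), ν {t : ℂ | u < Real.posLog ‖t - ρ‖⁻¹} ≤
        ENNReal.ofReal (C * Real.exp (-s * u)) := by
      intro u hu
      have hu0 : 0 < u := hu
      have h2 : {t : ℂ | u < Real.posLog ‖t - ρ‖⁻¹} ⊆ closedBall ρ (Real.exp (-u)) := by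
        intro t ht
        have ht' : u < Real.posLog ‖t - ρ‖⁻¹ := ht
        rw [mem_closedBall_iff_norm]
        rcases eq_or_ne (‖t - ρ‖) 0 with h0 | h0
        · rw [h0]; positivity
        · have hp : 0 < ‖t - ρ‖ := lt_of_le_of_ne (norm_nonneg _) (Ne.symm h0)
          rw [Real.posLog_apply, lt_max_iff, Real.log_inv] at ht'
          rcases ht' with h3 | h3
          · linarith
          · have : Real.log ‖t - ρ‖ ≤ -u := by linarith
            exact (Real.log_le_iff_le_exp hp).1 this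
      refine (measure_mono h2).trans ((h ρ _ (Real.exp_pos _)).trans (le_of_eq ?_))
      congr 2
      rw [← Real.exp_mul]
      congr 1
      ring
    refine (setLIntegral_mono (by fun_prop) h1).trans ?_
    have h4 : IntegrableOn (fun u : ℝ => C * Real.exp (-s * u)) (Ioi 0) :=
      (integrableOn_exp_mul_Ioi (by linarith) 0).const_mul C
    rw [← ofReal_integral_eq_lintegral_ofReal h4 (Eventually.of_forall fun u => by positivity)]
    apply ENNReal.ofReal_le_ofReal
    rw [integral_const_mul, integral_exp_mul_Ioi (by linarith)]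
    simp
    field_simp
    exact le_rfl

/-- **Dimension**: either all the sums are quasinilpotent (and `K` is), or the couplings with a
quasinilpotent sum form a set of Hausdorff dimension zero -/
theorem dim_QQ (T K : X →L[ℂ] X) (hK : IsCompactOperator K)
    (h : ¬ ((∀ κ : ℂ, spectrum ℂ (T + κ • K) ⊆ {0}) ∧ spectrum ℂ K ⊆ {0})) :
    dimH {κ : ℂ | spectrum ℂ (T + κ • K) ⊆ {0}} = 0 := by
  set E : Set ℂ := {κ : ℂ | spectrum ℂ (T + κ • K) ⊆ {0}} with hE
  have h1 : E = ⋃ n : ℕ, E ∩ closedBall 0 (n : ℝ) := by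
    ext κ
    simp only [mem_iUnion, mem_inter_iff, mem_closedBall_zero_iff]
    constructor
    · intro hk
      obtain ⟨n, hn⟩ := exists_nat_ge ‖κ‖
      exact ⟨n, hk, hn⟩
    · rintro ⟨n, hk, _⟩
      exact hk
  rw [h1, dimH_iUnion]
  simp only [ENNReal.iSup_eq_zero]
  intro n
  by_contra hd
  have hc : IsCompact (E ∩ closedBall 0 (n : ℝ)) :=
    (isCompact_closedBall 0 (n : ℝ)).inter_left (QQ_closed T K hK)
  obtain ⟨s, hs0, hs1⟩ : ∃ s : ℝ, 0 < s ∧ ENNReal.ofReal s < dimH (E ∩ closedBall 0 (n : ℝ)) := by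
    obtain ⟨q, hq1, hq2⟩ := ENNReal.lt_iff_exists_nnreal_btwn.1 (pos_iff_ne_zero.2 hd)
    refine ⟨q, ?_, ?_⟩
    · exact_mod_cast hq1
    · rwa [ENNReal.ofReal_coe_nnreal]
  obtain ⟨ν, hν, hν0, C, hC, hb⟩ := Pool.Agent.TH966.HD.frostman_complex hc hs0.le hs1
  obtain ⟨hat, hpot⟩ := pot_of_frostman ν hs0 hC hb
  apply h
  refine key T K ν hat n (Nat.cast_nonneg n) (measure_ne_top _ _) (C / s) (by positivity)
    (fun ρ => (lintegral_mono' Measure.restrict_le_self le_rfl).trans (hpot ρ)) ?_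
  intro h0
  have h2 : ν univ ≤ 0 := by
    rw [← union_compl_self (E ∩ closedBall 0 (n : ℝ))]
    refine (measure_union_le _ _).trans ?_
    rw [h0, hν0, add_zero]
  rw [measure_univ] at h2
  exact absurd h2 (by norm_num)

end Pool.Agent.H875.QN
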