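import Mathlib
import Pool.Agent.X882.FB.Omit

/-!
# Polynomials with entire coefficients: the number of parameters with a zero-free value
-/

set_option autoImplicit false

open Polynomial

namespace Pool.Agent.H875.QN

theorem lag_zero {ι : Type} [DecidableEq ι] (v : ι → ℂ) (hv : Function.Injective v)
    (R : Finset ι) (n : ℕ) (hR : R.card = n + 2) (p : ℂ[X]) (hp : p.natDegree ≤ n) :
    ∑ i ∈ R, (∏ j ∈ R.erase i, (v i - v j))⁻¹ * p.eval (v i) = 0 := by
  have h1 : p.degree < R.card := by
    rw [hR]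
    refine lt_of_le_of_lt (degree_le_natDegree) ?_
    exact_mod_cast (by omega : p.natDegree < n + 2)
  have h2 := Lagrange.coeff_eq_sum (v := v) (s := R) (hv.injOn) h1
  rw [hR, show n + 2 - 1 = n + 1 by omega, coeff_eq_zero_of_natDegree_lt (by omega)] at h2
  rw [h2]
  refine Finset.sum_congr rfl fun i _ => ?_
  rw [div_eq_inv_mul]

theorem prod_ne {ι : Type} [DecidableEq ι] (v : ι → ℂ) (hv : Function.Injective v)
    (R : Finset ι) (i : ι) : (∏ j ∈ R.erase i, (v i - v j))⁻¹ ≠ 0 := by
  apply inv_ne_zero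
  rw [Finset.prod_ne_zero_iff]
  intro j hj
  rw [sub_ne_zero]
  intro h
  exact (Finset.mem_erase.1 hj).1 (hv h).symm

/-- A polynomial of degree at most `n` whose coefficients are entire functions, with value one at
`0`: if it has `2 n + 1` zero-free values (one of them at `0`), it is constant. -/
theorem borel_count {n : ℕ} (P : ℂ → ℂ[X]) (hdeg : ∀ w, (P w).natDegree ≤ n)
    (hent : ∀ κ : ℂ, Differentiable ℂ (fun w => (P w).eval κ)) (h0 : ∀ κ, (P 0).eval κ = 1)
    (hk0 : ∀ w, (P w).eval 0 = 1) (s : Finset ℂ) (hs0 : (0 : ℂ) ∈ s) (hcard : 2 * n + 1 ≤ s.card)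
    (hs : ∀ κ ∈ s, ∀ w, (P w).eval κ ≠ 0) (κ w : ℂ) : (P w).eval κ = 1 := by
  classical
  -- logarithms
  have hlog : ∀ i : s, ∃ G : ℂ → ℂ, Differentiable ℂ G ∧ ∀ z, (P z).eval (i : ℂ) = Complex.exp (G z) :=
    fun i => Pool.Agent.X882.FB.exists_exp (hent i) (hs i i.2)
  choose G hG hGe using hlog
  let x : s → ℂ := fun i => if ∀ z, (P z).eval (i : ℂ) = 1 then 1 else 0
  have hx : ∀ i j (c : ℂ), (∀ z, G i z = G j z + c) → x i = Complex.exp c • x j := by
    intro i j c hc
    have h1 : Complex.exp c = 1 := by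
      have h2 := hGe i 0
      have h3 := hGe j 0
      rw [h0] at h2 h3
      rw [hc 0, Complex.exp_add, ← h3, one_mul] at h2
      exact h2.symm
    have h4 : ∀ z, (P z).eval (i : ℂ) = (P z).eval (j : ℂ) := by
      intro z
      rw [hGe i z, hGe j z, hc z, Complex.exp_add, h1, mul_one]
    rw [h1, one_smul]
    simp only [x, h4]
  have hv : Function.Injective (Subtype.val : s → ℂ) := Subtype.val_injective
  have key : ∀ R : Finset s, R.card = n + 2 →
      ∑ i ∈ R, (∏ j ∈ R.erase i, ((i : ℂ) - j))⁻¹ * x i = 0 := by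
    intro R hR
    have := Pool.Agent.H159R3.Exp.borel_spec G hG x hx R
      (fun i => (∏ j ∈ R.erase i, ((i : ℂ) - j))⁻¹) (by
        intro z
        rw [← lag_zero (Subtype.val : s → ℂ) hv R n hR (P z) (hdeg z)]
        refine Finset.sum_congr rfl fun i _ => ?_
        rw [hGe i z])
    simpa [smul_eq_mul] using this
  have key1 : ∀ R : Finset s, R.card = n + 2 →
      ∑ i ∈ R, (∏ j ∈ R.erase i, ((i : ℂ) - j))⁻¹ = 0 := by
    intro R hR
    have := lag_zero (Subtype.val : s → ℂ) hv R n hR 1 (by simp)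
    simpa using this
  let C : Finset s := Finset.univ.filter (fun i => ∀ z, (P z).eval (i : ℂ) = 1)
  let D : Finset s := Finset.univ.filter (fun i => ¬ ∀ z, (P z).eval (i : ℂ) = 1)
  have hCD : C.card + D.card = s.card := by
    have := Finset.card_filter_add_card_filter_not (s := (Finset.univ : Finset s))
      (fun i : s => ∀ z, (P z).eval (i : ℂ) = 1)
    rw [Finset.card_univ, Fintype.card_coe] at this
    exact this
  have hxC : ∀ i ∈ C, x i = 1 := fun i hi => if_pos (Finset.mem_filter.1 hi).2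
  have hxD : ∀ i ∈ D, x i = 0 := fun i hi => if_neg (Finset.mem_filter.1 hi).2
  have hDn : D.card ≤ n := by
    by_contra hcon
    obtain ⟨D', hD', hDc⟩ := Finset.exists_subset_card_eq (s := D) (n := n + 1) (by omega)
    let o : s := ⟨0, hs0⟩
    have hoC : o ∈ C := Finset.mem_filter.2 ⟨Finset.mem_univ _, hk0⟩
    have hoD : o ∉ D' := fun h => (Finset.mem_filter.1 (hD' h)).2 hk0
    have h1 := key (insert o D') (by rw [Finset.card_insert_of_notMem hoD, hDc])
    rw [Finset.sum_insert hoD, hxC o hoC, mul_one,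
      Finset.sum_eq_zero (fun i hi => by rw [hxD i (hD' hi), mul_zero]), add_zero] at h1
    exact prod_ne (Subtype.val : s → ℂ) hv (insert o D') o h1
  have hD0 : D = ∅ := by
    by_contra hcon
    obtain ⟨d, hd⟩ := Finset.nonempty_iff_ne_empty.2 hcon
    obtain ⟨C', hC', hCc⟩ := Finset.exists_subset_card_eq (s := C) (n := n + 1) (by omega)
    have hdC : d ∉ C' := fun h => (Finset.mem_filter.1 hd).2 (Finset.mem_filter.1 (hC' h)).2
    have hcard' : (insert d C').card = n + 2 := by rw [Finset.card_insert_of_notMem hdC, hCc]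
    have h1 := key (insert d C') hcard'
    have h2 := key1 (insert d C') hcard'
    rw [Finset.sum_insert hdC] at h1 h2
    rw [hxD d hd, mul_zero, zero_add, Finset.sum_congr rfl (g := fun i : s =>
      (∏ j ∈ (insert d C').erase i, ((i : ℂ) - j))⁻¹) (fun i hi => by rw [hxC i (hC' hi), mul_one])] at h1
    rw [h1, add_zero] at h2
    exact prod_ne (Subtype.val : s → ℂ) hv (insert d C') d h2
  have hall : ∀ i ∈ s, (P w).eval i = 1 := by
    intro i hi
    by_contra hcon
    have : (⟨i, hi⟩ : s) ∈ D := Finset.mem_filter.2 ⟨Finset.mem_univ _, fun h => hcon (h w)⟩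
    rw [hD0] at this
    exact absurd this (Finset.notMem_empty _)
  have hP : P w - 1 = 0 := by
    apply Polynomial.eq_zero_of_natDegree_lt_card_of_eval_eq_zero' (P w - 1) s
    · intro i hi
      rw [eval_sub, hall i hi, eval_one, sub_self]
    · refine lt_of_le_of_lt (natDegree_sub_le _ _) ?_
      rw [natDegree_one]
      have := hdeg w
      omega
  have : P w = 1 := sub_eq_zero.1 hP
  rw [this, eval_one]

end Pool.Agent.H875.QN
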