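import Pool.Agent.H875.QN.Split

/-!
# Compact perturbations of quasinilpotent operators: the spectrum is discrete outside of zero
-/

set_option autoImplicit false

open MeasureTheory Set Filter Topology Metric

namespace Pool.Agent.H875.QN

variable {X : Type} [NormedAddCommGroup X] [NormedSpace ℂ X]

/-- Riesz' lemma between two subspaces -/
theorem riesz_between {V W : Submodule ℂ X} (hV : IsClosed (V : Set X)) (hVW : V ≤ W)
    {w : X} (hw : w ∈ W) (hw' : w ∉ V) : ∃ y ∈ W, ‖y‖ = 1 ∧ ∀ v ∈ V, (1 / 2 : ℝ) ≤ ‖y - v‖ := by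
  let F : Submodule ℂ W := V.comap W.subtype
  have hF : IsClosed (F : Set W) := hV.preimage continuous_subtype_val
  obtain ⟨x, hx, hx2⟩ := riesz_lemma hF ⟨⟨w, hw⟩, hw'⟩ (r := 1 / 2) (by norm_num)
  have hx0 : x ≠ 0 := by
    rintro rfl
    exact hx F.zero_mem
  have hn : 0 < ‖x‖ := norm_pos_iff.2 hx0
  refine ⟨((‖x‖ : ℂ)⁻¹) • (x : X), W.smul_mem _ x.2, ?_, ?_⟩
  · rw [norm_smul, norm_inv, Complex.norm_real, norm_norm]
    have : ‖(x : X)‖ = ‖x‖ := rfl
    rw [this, inv_mul_cancel₀ hn.ne']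
  · intro v hv
    have h1 : ((‖x‖ : ℂ)) • v ∈ V := V.smul_mem _ hv
    have h2 := hx2 ⟨(‖x‖ : ℂ) • v, hVW h1⟩ h1
    have h3 : ((‖x‖ : ℂ)⁻¹) • (x : X) - v = ((‖x‖ : ℂ)⁻¹) • ((x : X) - (‖x‖ : ℂ) • v) := by
      rw [smul_sub, smul_smul, inv_mul_cancel₀ (by exact_mod_cast hn.ne'), one_smul]
    rw [h3, norm_smul, norm_inv, Complex.norm_real, norm_norm]
    have h4 : ‖x - (⟨(‖x‖ : ℂ) • v, hVW h1⟩ : W)‖ = ‖(x : X) - (‖x‖ : ℂ) • v‖ := rfl
    rw [h4] at h2
    rw [← div_eq_inv_mul, le_div_iff₀ hn]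
    exact h2

variable [CompleteSpace X]

theorem finite_spec {T K : X →L[ℂ] X} (hT : spectrum ℂ T ⊆ {0}) (hK : IsCompactOperator K)
    {r : ℝ} (hr : 0 < r) : (spectrum ℂ (T + K) ∩ {z | r ≤ ‖z‖}).Finite := by
  by_contra hinf
  have hinf' : (spectrum ℂ (T + K) ∩ {z | r ≤ ‖z‖}).Infinite := hinf
  let e := hinf'.natEmbedding
  set B : X →L[ℂ] X := T + K with hB
  have hl : ∀ n, (e n : ℂ) ∈ spectrum ℂ B ∧ r ≤ ‖(e n : ℂ)‖ := fun n => (e n).2
  have hx : ∀ n, ∃ x : X, x ≠ 0 ∧ B x = (e n : ℂ) • x := by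
    intro n
    apply eigen_of_compact T K hK _ (hl n).1
    by_contra h
    have h1 : (e n : ℂ) ∈ spectrum ℂ T := h
    have h2 := hT h1
    rw [mem_singleton_iff] at h2
    have := (hl n).2
    rw [h2, norm_zero] at this
    linarith
  choose x hx0 hxB using hx
  -- the eigenvectors are independent
  have hli : LinearIndependent ℂ x := by
    apply Module.End.eigenvectors_linearIndependent' (B : X →ₗ[ℂ] X) (fun n => (e n : ℂ))
    · intro a b hab
      exact e.injective (Subtype.ext hab)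
    · intro n
      refine ⟨?_, hx0 n⟩
      rw [Module.End.mem_eigenspace_iff]
      exact hxB n
  let M : ℕ → Submodule ℂ X := fun n => Submodule.span ℂ (x '' {k | k < n})
  have hMmono : Monotone M := by
    intro a b hab
    apply Submodule.span_mono
    apply image_mono
    intro k hk
    exact lt_of_lt_of_le hk hab
  have hMclosed : ∀ n, IsClosed (M n : Set X) := by
    intro n
    have : FiniteDimensional ℂ (M n) :=
      FiniteDimensional.span_of_finite ℂ ((Set.finite_lt_nat n).image x)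
    exact Submodule.closed_of_finiteDimensional (M n)
  have hxM : ∀ n, x n ∈ M (n + 1) := fun n =>
    Submodule.subset_span ⟨n, Nat.lt_succ_self n, rfl⟩
  have hxM' : ∀ n, x n ∉ M n := by
    intro n
    exact hli.notMem_span_image (by simp)
  have hBM : ∀ n, ∀ y ∈ M n, B y ∈ M n := by
    intro n y hy
    induction hy using Submodule.span_induction with
    | mem y hy =>
      obtain ⟨k, hk, rfl⟩ := hy
      rw [hxB]
      exact (M n).smul_mem _ (Submodule.subset_span ⟨k, hk, rfl⟩)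
    | zero => rw [map_zero]; exact (M n).zero_mem
    | add a b _ _ ha hb => rw [map_add]; exact (M n).add_mem ha hb
    | smul c a _ ha => rw [map_smul]; exact (M n).smul_mem _ ha
  have hBM1 : ∀ n, ∀ y ∈ M (n + 1), B y - (e n : ℂ) • y ∈ M n := by
    intro n y hy
    induction hy using Submodule.span_induction with
    | mem y hy =>
      obtain ⟨k, hk, rfl⟩ := hy
      rcases lt_or_eq_of_le (Nat.lt_succ_iff.1 hk) with h | h
      · have h1 : x k ∈ M n := Submodule.subset_span ⟨k, h, rfl⟩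
        exact (M n).sub_mem (hBM n _ h1) ((M n).smul_mem _ h1)
      · rw [h, hxB, sub_self]
        exact (M n).zero_mem
    | zero => simp
    | add a b _ _ ha hb =>
      have : B (a + b) - (e n : ℂ) • (a + b) =
          (B a - (e n : ℂ) • a) + (B b - (e n : ℂ) • b) := by
        rw [map_add, smul_add]; abel
      rw [this]
      exact (M n).add_mem ha hb
    | smul c a _ ha =>
      have : B (c • a) - (e n : ℂ) • (c • a) = c • (B a - (e n : ℂ) • a) := by
        rw [map_smul, smul_sub, smul_comm]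
      rw [this]
      exact (M n).smul_mem _ ha
  have hBpow : ∀ n m, ∀ y ∈ M n, (B ^ m) y ∈ M n := by
    intro n m
    induction m with
    | zero => intro y hy; simpa using hy
    | succ m ih =>
      intro y hy
      rw [pow_succ']
      exact hBM n _ (ih y hy)
  have hBpow1 : ∀ n m, ∀ y ∈ M (n + 1), (B ^ m) y - (e n : ℂ) ^ m • y ∈ M n := by
    intro n m
    induction m with
    | zero => intro y hy; simp
    | succ m ih =>
      intro y hy
      have h1 := hBM n _ (ih y hy)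
      have h2 := (M n).smul_mem ((e n : ℂ) ^ m) (hBM1 n y hy)
      have h3 : (B ^ (m + 1)) y - (e n : ℂ) ^ (m + 1) • y =
          B ((B ^ m) y - (e n : ℂ) ^ m • y) + (e n : ℂ) ^ m • (B y - (e n : ℂ) • y) := by
        rw [map_sub, map_smul, smul_sub, smul_smul, ← pow_succ, pow_succ' B]
        show B ((B ^ m) y) - _ = _
        abel
      rw [h3]
      exact (M n).add_mem h1 h2
  have hy : ∀ n, ∃ y ∈ M (n + 1), ‖y‖ = 1 ∧ ∀ v ∈ M n, (1 / 2 : ℝ) ≤ ‖y - v‖ := fun n =>
    riesz_between (hMclosed n) (hMmono (Nat.le_succ n)) (hxM n) (hxM' n)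
  choose y hyM hy1 hyd using hy
  obtain ⟨m, hm, hm2⟩ := ((pow_small hT (ε := r / 8) (by positivity)).and
    (eventually_ge_atTop 2)).exists
  have hC : IsCompactOperator (B ^ m - T ^ m) := by
    apply compact_pow_sub
    rw [hB, add_sub_cancel_left]
    exact hK
  -- separation
  have hsep : ∀ k n, k < n → r ^ m / 4 ≤ ‖(B ^ m - T ^ m) (y n) - (B ^ m - T ^ m) (y k)‖ := by
    intro k n hkn
    have h1 : (B ^ m) (y n) - (e n : ℂ) ^ m • y n ∈ M n := hBpow1 n m _ (hyM n)
    have h2 : (B ^ m) (y k) ∈ M n := hBpow n m _ (hMmono hkn (hyM k))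
    have hln : (e n : ℂ) ≠ 0 := by
      intro h
      have := (hl n).2
      rw [h, norm_zero] at this
      linarith
    have h3 : r ^ m / 2 ≤ ‖(B ^ m) (y n) - (B ^ m) (y k)‖ := by
      set u : X := (B ^ m) (y k) - ((B ^ m) (y n) - (e n : ℂ) ^ m • y n) with hu
      have hu' : u ∈ M n := (M n).sub_mem h2 h1
      have h4 : (B ^ m) (y n) - (B ^ m) (y k) =
          (e n : ℂ) ^ m • (y n - ((e n : ℂ) ^ m)⁻¹ • u) := by
        rw [smul_sub, smul_smul, mul_inv_cancel₀ (pow_ne_zero _ hln), one_smul, hu]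
        abel
      rw [h4, norm_smul, norm_pow]
      have h5 := hyd n _ ((M n).smul_mem (((e n : ℂ) ^ m)⁻¹) hu')
      have h6 : r ^ m ≤ ‖(e n : ℂ)‖ ^ m := pow_le_pow_left₀ hr.le (hl n).2 m
      have h7 : 0 < r ^ m := by positivity
      nlinarith
    have h8 : ‖(T ^ m) (y n) - (T ^ m) (y k)‖ ≤ 2 * (r / 8) ^ m := by
      rw [← map_sub]
      calc ‖(T ^ m) (y n - y k)‖ ≤ ‖T ^ m‖ * ‖y n - y k‖ := (T ^ m).le_opNorm _
        _ ≤ (r / 8) ^ m * 2 := by
            apply mul_le_mul hm _ (norm_nonneg _) (by positivity)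
            calc ‖y n - y k‖ ≤ ‖y n‖ + ‖y k‖ := norm_sub_le _ _
              _ = 2 := by rw [hy1, hy1]; norm_num
        _ = _ := by ring
    have h9 : (r / 8) ^ m ≤ r ^ m / 64 := by
      rw [div_pow]
      apply div_le_div_of_nonneg_left (by positivity) (by norm_num)
      calc (64 : ℝ) = 8 ^ 2 := by norm_num
        _ ≤ 8 ^ m := pow_le_pow_right₀ (by norm_num) hm2
    have h10 : (B ^ m - T ^ m) (y n) - (B ^ m - T ^ m) (y k) =
        ((B ^ m) (y n) - (B ^ m) (y k)) - ((T ^ m) (y n) - (T ^ m) (y k)) := by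
      simp only [_root_.sub_apply]
      abel
    rw [h10]
    have h11 := norm_sub_norm_le ((B ^ m) (y n) - (B ^ m) (y k)) ((T ^ m) (y n) - (T ^ m) (y k))
    have h12 : 0 < r ^ m := by positivity
    linarith
  obtain ⟨L, hL, hL'⟩ := hC.image_closedBall_subset_compact 1
  obtain ⟨z, hz, ψ, hψ, hψz⟩ := hL.tendsto_subseq
    (fun n => hL' ⟨y n, by simp [hy1], rfl⟩)
  have hcau := hψz.cauchySeq
  rw [Metric.cauchySeq_iff'] at hcau
  obtain ⟨N, hN⟩ := hcau (r ^ m / 4) (by positivity)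
  have h1 := hN (N + 1) (Nat.le_succ N)
  rw [dist_eq_norm] at h1
  exact absurd h1 (not_lt.2 (hsep _ _ (hψ (Nat.lt_succ_self N))))

end Pool.Agent.H875.QN
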