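import Pool.Agent.H875.QN.Count
import Pool.Agent.H875.QN.Split
import Pool.Agent.Y271.CO.Acc
import Pool.Agent.Y271.CO.Poly

/-!
# Finite rank perturbations of quasinilpotent operators
-/

set_option autoImplicit false

open Set Filter Topology Metric Matrix

namespace Pool.Agent.H875.QN

open Pool.Agent.Y271.CO (Mx op op_apply op_mul op_one op_sub_smul op_Mx res_formula det_ne eval_rev
  natDegree_rev)

variable {X : Type} [NormedAddCommGroup X] [NormedSpace ℂ X] [CompleteSpace X] {n : ℕ}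

/-- `(1 - w T)⁻¹` -/
noncomputable def RR (T : X →L[ℂ] X) (w : ℂ) : X →L[ℂ] X := Ring.inverse (1 - w • T)

omit [CompleteSpace X] in
theorem RR_zero (T : X →L[ℂ] X) : RR T 0 = 1 := by
  unfold RR
  rw [zero_smul, sub_zero, Ring.inverse_one]

omit [CompleteSpace X] in
theorem unit_of (T : X →L[ℂ] X) (hT : spectrum ℂ T ⊆ {0}) (w : ℂ) : IsUnit (1 - w • T) := by
  rcases eq_or_ne w 0 with rfl | hw
  · rw [zero_smul, sub_zero]
    exact isUnit_one
  · have h1 : w⁻¹ ∈ resolventSet ℂ T := by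
      by_contra h
      have : w⁻¹ ∈ spectrum ℂ T := h
      have := hT this
      simp only [mem_singleton_iff, inv_eq_zero] at this
      exact hw this
    have h2 : IsUnit (algebraMap ℂ (X →L[ℂ] X) w⁻¹ - T) := h1
    have h3 : 1 - w • T = w • (algebraMap ℂ (X →L[ℂ] X) w⁻¹ - T) := by
      rw [smul_sub, Algebra.algebraMap_eq_smul_one, smul_smul, mul_inv_cancel₀ hw, one_smul]
    rw [h3]
    exact (h2.smul (Units.mk0 w hw) :)

omit [CompleteSpace X] in
theorem RR_res (T : X →L[ℂ] X) (w : ℂ) (hw : w ≠ 0) : w • RR T w = resolvent T w⁻¹ := by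
  unfold RR resolvent
  have h3 : 1 - w • T = w • (algebraMap ℂ (X →L[ℂ] X) w⁻¹ - T) := by
    rw [smul_sub, Algebra.algebraMap_eq_smul_one, smul_smul, mul_inv_cancel₀ hw, one_smul]
  by_cases hu : IsUnit (algebraMap ℂ (X →L[ℂ] X) w⁻¹ - T)
  · have h4 : (1 - w • T) * (w⁻¹ • Ring.inverse (algebraMap ℂ (X →L[ℂ] X) w⁻¹ - T)) = 1 := by
      rw [h3, smul_mul_smul_comm, Ring.mul_inverse_cancel _ hu, mul_inv_cancel₀ hw, one_smul]
    have hu' : IsUnit (1 - w • T) := by
      rw [h3]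
      exact (hu.smul (Units.mk0 w hw) :)
    have h5 : Ring.inverse (1 - w • T) = w⁻¹ • Ring.inverse (algebraMap ℂ (X →L[ℂ] X) w⁻¹ - T) := by
      calc Ring.inverse (1 - w • T) = Ring.inverse (1 - w • T) *
            ((1 - w • T) * (w⁻¹ • Ring.inverse (algebraMap ℂ (X →L[ℂ] X) w⁻¹ - T))) := by
              rw [h4, mul_one]
        _ = _ := by rw [← mul_assoc, Ring.inverse_mul_cancel _ hu', one_mul]
    rw [h5, smul_smul, mul_inv_cancel₀ hw, one_smul]
  · have hu' : ¬ IsUnit (1 - w • T) := by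
      intro h
      apply hu
      have h6 : algebraMap ℂ (X →L[ℂ] X) w⁻¹ - T = w⁻¹ • (1 - w • T) := by
        rw [h3, smul_smul, inv_mul_cancel₀ hw, one_smul]
      rw [h6]
      exact (h.smul (Units.mk0 w⁻¹ (inv_ne_zero hw)) :)
    rw [Ring.inverse_non_unit _ hu, Ring.inverse_non_unit _ hu', smul_zero]

theorem RR_diff (T : X →L[ℂ] X) (hT : spectrum ℂ T ⊆ {0}) : Differentiable ℂ (RR T) := by
  intro w
  have h1 : DifferentiableAt ℂ (fun w : ℂ => (1 - w • T : X →L[ℂ] X)) w := by fun_prop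
  obtain ⟨u, hu⟩ := unit_of T hT w
  have h2 : DifferentiableAt ℂ (Ring.inverse : (X →L[ℂ] X) → (X →L[ℂ] X)) (1 - w • T) := by
    rw [← hu]
    exact (hasFDerivAt_ringInverse (𝕜 := ℂ) u).differentiableAt
  exact h2.comp w h1

/-- the matrix `w F (1 - w T)⁻¹ J` -/
noncomputable def MM (T : X →L[ℂ] X) (F : X →L[ℂ] (Fin n → ℂ)) (J : (Fin n → ℂ) →L[ℂ] X) (w : ℂ) :
    Matrix (Fin n) (Fin n) ℂ := Mx F J (w • RR T w)

theorem det_diff (T : X →L[ℂ] X) (hT : spectrum ℂ T ⊆ {0}) (F : X →L[ℂ] (Fin n → ℂ))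
    (J : (Fin n → ℂ) →L[ℂ] X) (κ : ℂ) :
    Differentiable ℂ (fun w => (1 - κ • MM T F J w).det) := by
  have h1 : Differentiable ℂ (fun w => w • RR T w) := differentiable_id.smul (RR_diff T hT)
  have h2 : ∀ i j, Differentiable ℂ (fun w => (1 - κ • MM T F J w) i j) := by
    intro i j
    have h3 : Differentiable ℂ (fun w => Mx F J (w • RR T w) i j) := by
      have h4 : ∀ R : X →L[ℂ] X, Mx F J R i j =
          ((ContinuousLinearMap.proj (R := ℂ) (φ := fun _ : Fin n => ℂ) i).comp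
            (F.comp ((ContinuousLinearMap.apply ℂ X (J (Pi.single j 1)))))) R := by
        intro R
        rfl
      simp only [h4]
      exact (ContinuousLinearMap.differentiable _).comp h1
    simp only [MM, Matrix.sub_apply, Matrix.smul_apply, smul_eq_mul]
    exact (differentiable_const _).sub (h3.const_mul κ)
  simp only [Matrix.det_apply]
  refine Differentiable.fun_sum fun σ _ => ?_
  refine Differentiable.const_smul ?_ _
  exact Differentiable.fun_finsetProd fun i _ => h2 _ _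

omit [CompleteSpace X] in
theorem det_ne' (T : X →L[ℂ] X) (hT : spectrum ℂ T ⊆ {0}) (F : X →L[ℂ] (Fin n → ℂ))
    (J : (Fin n → ℂ) →L[ℂ] X) (κ : ℂ) (hκ : spectrum ℂ (T + κ • J.comp F) ⊆ {0}) (w : ℂ) :
    (1 - κ • MM T F J w).det ≠ 0 := by
  rcases eq_or_ne w 0 with rfl | hw
  · have h1 : MM T F J 0 = 0 := by
      ext i j
      simp [MM, Mx]
    rw [h1, smul_zero, sub_zero, Matrix.det_one]
    exact one_ne_zero
  · have hz : ∀ S : X →L[ℂ] X, spectrum ℂ S ⊆ {0} → w⁻¹ ∈ resolventSet ℂ S := by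
      intro S hS
      by_contra h
      have : w⁻¹ ∈ spectrum ℂ S := h
      have := hS this
      simp only [mem_singleton_iff, inv_eq_zero] at this
      exact hw this
    have hT' : T + κ • J.comp F + (-κ) • J.comp F = T := by
      rw [neg_smul]; abel
    have h2 := det_ne (T + κ • J.comp F) F J (-κ) w⁻¹ (hz _ hκ) (by rw [hT']; exact hz _ hT)
    rw [hT', neg_neg] at h2
    unfold MM
    rwa [RR_res T w hw]

omit [CompleteSpace X] in
theorem spec_of_det (T : X →L[ℂ] X) (hT : spectrum ℂ T ⊆ {0}) (F : X →L[ℂ] (Fin n → ℂ))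
    (J : (Fin n → ℂ) →L[ℂ] X) (κ : ℂ) (h : ∀ w, (1 - κ • MM T F J w).det ≠ 0) :
    spectrum ℂ (T + κ • J.comp F) ⊆ {0} := by
  intro z hz
  by_contra hz0
  have hz0' : z ≠ 0 := by simpa using hz0
  have hw : z⁻¹ ≠ 0 := inv_ne_zero hz0'
  have h1 := h z⁻¹
  unfold MM at h1
  rw [RR_res T _ hw, inv_inv] at h1
  have hzT : z ∈ resolventSet ℂ T := by
    by_contra h2
    have : z ∈ spectrum ℂ T := h2
    exact hz0 (hT this)
  have hu : IsUnit (1 - κ • Mx F J (resolvent T z)).det := isUnit_iff_ne_zero.2 h1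
  have h3 := res_formula T F J κ z hzT (1 - κ • Mx F J (resolvent T z))⁻¹
    (Matrix.mul_nonsing_inv _ hu) (Matrix.nonsing_inv_mul _ hu)
  exact hz h3.1

/-- **Counting theorem**: if `2 n + 1` of the operators `T + κ J F` are quasinilpotent (`T` among
them) then all are, and `det (1 - κ M w) = 1`. -/
theorem count_det (T : X →L[ℂ] X) (hT : spectrum ℂ T ⊆ {0}) (F : X →L[ℂ] (Fin n → ℂ))
    (J : (Fin n → ℂ) →L[ℂ] X) (s : Finset ℂ) (hs0 : (0 : ℂ) ∈ s) (hcard : 2 * n + 1 ≤ s.card)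
    (hs : ∀ κ ∈ s, spectrum ℂ (T + κ • J.comp F) ⊆ {0}) (κ w : ℂ) :
    (1 - κ • MM T F J w).det = 1 := by
  rw [← eval_rev]
  refine borel_count (n := n) (fun w => (MM T F J w).charpolyRev) (fun w => natDegree_rev _) ?_ ?_ ?_
    s hs0 hcard ?_ κ w
  · intro κ
    simp only [eval_rev]
    exact det_diff T hT F J κ
  · intro κ
    have h1 : MM T F J 0 = 0 := by
      ext i j
      simp [MM, Mx]
    rw [eval_rev, h1, smul_zero, sub_zero, Matrix.det_one]
  · intro w
    rw [eval_rev, zero_smul, sub_zero, Matrix.det_one]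
  · intro κ hκ w
    rw [eval_rev]
    exact det_ne' T hT F J κ (hs κ hκ) w

theorem count_all (T : X →L[ℂ] X) (hT : spectrum ℂ T ⊆ {0}) (F : X →L[ℂ] (Fin n → ℂ))
    (J : (Fin n → ℂ) →L[ℂ] X) (s : Finset ℂ) (hs0 : (0 : ℂ) ∈ s) (hcard : 2 * n + 1 ≤ s.card)
    (hs : ∀ κ ∈ s, spectrum ℂ (T + κ • J.comp F) ⊆ {0}) (κ : ℂ) :
    spectrum ℂ (T + κ • J.comp F) ⊆ {0} :=
  spec_of_det T hT F J κ fun w => by
    rw [count_det T hT F J s hs0 hcard hs κ w]
    exact one_ne_zero

/-- the subspace of all `x` with `F (1 - w T)⁻¹ x = 0` for all `w` -/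
noncomputable def VV (T : X →L[ℂ] X) (F : X →L[ℂ] (Fin n → ℂ)) : Submodule ℂ X :=
  ⨅ w : ℂ, LinearMap.ker ((F.comp (RR T w) : X →L[ℂ] (Fin n → ℂ)) : X →ₗ[ℂ] (Fin n → ℂ))

omit [CompleteSpace X] in
theorem mem_VV {T : X →L[ℂ] X} {F : X →L[ℂ] (Fin n → ℂ)} {x : X} :
    x ∈ VV T F ↔ ∀ w, F (RR T w x) = 0 := by
  simp [VV, Submodule.mem_iInf]

omit [CompleteSpace X] in
theorem VV_closed (T : X →L[ℂ] X) (F : X →L[ℂ] (Fin n → ℂ)) : IsClosed (VV T F : Set X) := by
  have : (VV T F : Set X) = ⋂ w : ℂ, (fun x => F (RR T w x)) ⁻¹' {0} := by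
    ext x
    simp [mem_VV]
  rw [this]
  refine isClosed_iInter fun w => ?_
  exact isClosed_singleton.preimage ((F.comp (RR T w)).continuous)

theorem VV_inv (T : X →L[ℂ] X) (hT : spectrum ℂ T ⊆ {0}) (F : X →L[ℂ] (Fin n → ℂ)) {x : X}
    (hx : x ∈ VV T F) : T x ∈ VV T F := by
  rw [mem_VV] at hx ⊢
  have h1 : ∀ w : ℂ, w ≠ 0 → F (RR T w (T x)) = 0 := by
    intro w hw
    have h2 : RR T w * (1 - w • T) = 1 := Ring.inverse_mul_cancel _ (unit_of T hT w)
    have h3 := congrArg (fun Z : X →L[ℂ] X => F (Z x)) h2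
    have h4 : F (RR T w (x - w • T x)) = F x := h3
    rw [map_sub, map_smul, map_sub, map_smul, hx w, zero_sub] at h4
    have h5 : F x = 0 := by
      have := hx 0
      rwa [RR_zero] at this
    rw [h5, neg_eq_zero, smul_eq_zero] at h4
    exact h4.resolve_left hw
  have hcont : Continuous (fun w => F (RR T w (T x))) := by
    have h6 : Continuous (RR T) := (RR_diff T hT).continuous
    exact F.continuous.comp (h6.clm_apply continuous_const)
  have h7 : ∀ w ∈ closure {w : ℂ | w ≠ 0}, F (RR T w (T x)) = 0 := by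
    intro w hw
    exact closure_minimal (fun z hz => h1 z hz) (isClosed_singleton.preimage hcont) hw
  intro w
  apply h7
  have : Dense ({0}ᶜ : Set ℂ) := dense_compl_singleton 0
  exact this w

end Pool.Agent.H875.QN
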