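import Pool.Agent.H875.QN.Fin
import Pool.Agent.H875.QN.Closed

/-!
# Perturbations of operators with totally disconnected spectrum: the theorems
-/

set_option autoImplicit false

open MeasureTheory Set Filter Topology Metric Matrix

namespace Pool.Agent.H875.QN

open Pool.Agent.Y271.CO (Mx op op_apply op_mul op_one op_sub_smul op_Mx res_formula det_ne eval_rev
  natDegree_rev)

variable {X : Type} [NormedAddCommGroup X] [NormedSpace ℂ X] {n : ℕ}

theorem exists_FJ' (K : X →L[ℂ] X) (hK : FiniteDimensional ℂ (LinearMap.range (K : X →ₗ[ℂ] X)))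
    (hn : Module.finrank ℂ (LinearMap.range (K : X →ₗ[ℂ] X)) = n) :
    ∃ (F : X →L[ℂ] (Fin n → ℂ)) (J : (Fin n → ℂ) →L[ℂ] X), K = J.comp F := by
  subst hn
  let R := LinearMap.range (K : X →ₗ[ℂ] X)
  let b := Module.finBasis ℂ R
  let e : R ≃L[ℂ] (Fin (Module.finrank ℂ R) → ℂ) := b.equivFun.toContinuousLinearEquiv
  let K' : X →L[ℂ] R := K.codRestrict R fun x => LinearMap.mem_range_self _ x
  refine ⟨(e : R →L[ℂ] _).comp K', R.subtypeL.comp (e.symm : _ →L[ℂ] R), ?_⟩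
  ext x
  simp [K']

theorem charpoly_of_rev (M : Matrix (Fin n) (Fin n) ℂ) (h : M.charpolyRev = 1) :
    M.charpoly = Polynomial.X ^ n := by
  have h1 : M.charpoly.natDegree = n := by rw [Matrix.charpoly_natDegree_eq_dim, Fintype.card_fin]
  ext j
  rcases lt_trichotomy j n with hj | hj | hj
  · have h2 : M.charpoly.reverse.coeff (n - j) = M.charpoly.coeff j := by
      rw [Polynomial.coeff_reverse, h1, Polynomial.revAt_le (by omega)]
      congr 1
      omega
    rw [Matrix.reverse_charpoly, h, Polynomial.coeff_one, if_neg (by omega)] at h2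
    rw [← h2, Polynomial.coeff_X_pow, if_neg (by omega)]
  · rw [hj, Polynomial.coeff_X_pow, if_pos rfl]
    have := (Matrix.charpoly_monic M).coeff_natDegree
    rwa [h1] at this
  · rw [Polynomial.coeff_eq_zero_of_natDegree_lt (by omega), Polynomial.coeff_X_pow,
      if_neg (by omega)]

theorem pow_zero_of_rev (M : Matrix (Fin n) (Fin n) ℂ) (h : M.charpolyRev = 1) : M ^ n = 0 := by
  have h1 := Matrix.aeval_self_charpoly M
  rw [charpoly_of_rev M h] at h1
  simpa using h1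

theorem nilp_of_pow (F : X →L[ℂ] (Fin n → ℂ)) (J : (Fin n → ℂ) →L[ℂ] X)
    (h : (Mx F J 1) ^ n = 0) : IsNilpotent (J.comp F) := by
  refine ⟨n + 1, ?_⟩
  have h1 : ∀ m : ℕ, (J.comp F) ^ (m + 1) = J.comp ((op ((Mx F J 1) ^ m)).comp F) := by
    intro m
    induction m with
    | zero =>
      rw [pow_zero, op_one, zero_add, pow_one]
      ext x
      simp
    | succ m ih =>
      rw [pow_succ', ih, pow_succ' (Mx F J 1), op_mul, op_Mx]
      ext x
      simp
  rw [h1, h]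
  ext x
  simp [op]

variable [CompleteSpace X]

theorem nilp_of_det (T : X →L[ℂ] X) (hT : spectrum ℂ T ⊆ {0}) (F : X →L[ℂ] (Fin n → ℂ))
    (J : (Fin n → ℂ) →L[ℂ] X) (h : ∀ κ w : ℂ, (1 - κ • MM T F J w).det = 1) :
    IsNilpotent (J.comp F) := by
  apply nilp_of_pow F J
  apply pow_zero_of_rev
  apply Polynomial.funext
  intro l
  rw [eval_rev, Polynomial.eval_one]
  -- `det (1 - l F (1 - w T)⁻¹ J)` is one for `w ≠ 0`, hence for `w = 0`
  have hcont : Continuous (fun w => (1 - l • Mx F J (RR T w)).det) := by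
    have h1 := (RR_diff T hT).continuous
    have h2 : Continuous (fun w => Mx F J (RR T w)) := by
      refine continuous_matrix fun i j => ?_
      show Continuous fun w => F (RR T w (J (Pi.single j 1))) i
      exact (continuous_apply i).comp (F.continuous.comp (h1.clm_apply continuous_const))
    exact (continuous_const.sub (h2.const_smul l)).matrix_det
  have h3 : ∀ w : ℂ, w ≠ 0 → (1 - l • Mx F J (RR T w)).det = 1 := by
    intro w hw
    have h4 := h (l * w⁻¹) w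
    have h5 : (l * w⁻¹) • MM T F J w = l • Mx F J (RR T w) := by
      ext i j
      simp only [MM, Mx, Matrix.smul_apply, _root_.smul_apply, map_smul, Pi.smul_apply,
        smul_eq_mul]
      field_simp
    rwa [h5] at h4
  have h6 : ∀ w ∈ closure {w : ℂ | w ≠ 0}, (1 - l • Mx F J (RR T w)).det = 1 := by
    intro w hw
    exact closure_minimal (fun z hz => h3 z hz) (isClosed_singleton.preimage hcont) hw
  have h7 : Dense ({0}ᶜ : Set ℂ) := dense_compl_singleton 0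
  have h8 := h6 0 (h7 0)
  rwa [RR_zero] at h8

/-- the reduction to a quasinilpotent operator -/
theorem reduce (hX : ¬ FiniteDimensional ℂ X) (A K : X →L[ℂ] X)
    (hA : IsTotallyDisconnected (spectrum ℂ A)) (hK : IsCompactOperator K) {κ₀ : ℂ}
    (h0 : ¬ HasHyper (A + κ₀ • K)) : ∃ c : ℂ,
      spectrum ℂ (A + κ₀ • K - c • (1 : X →L[ℂ] X)) ⊆ {0} ∧
      ∀ κ : ℂ, ¬ HasHyper (A + κ • K) → spectrum ℂ (A - c • (1 : X →L[ℂ] X) + κ • K) ⊆ {0} := by
  obtain ⟨c, hc⟩ := single_of_not_hyper hX A (κ₀ • K) hA (hK.smul κ₀) h0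
  have hT := spec_sub _ hc
  refine ⟨c, hT.le, fun κ hκ => ?_⟩
  obtain ⟨c', hc'⟩ := single_of_not_hyper hX A (κ • K) hA (hK.smul κ) hκ
  have h1 := zero_mem hX (K := (κ - κ₀) • K) hT.le (hK.smul (κ - κ₀))
  have h2 : A + κ₀ • K - c • (1 : X →L[ℂ] X) + (κ - κ₀) • K =
      A + κ • K - c • (1 : X →L[ℂ] X) := by
    rw [sub_smul]; abel
  rw [h2] at h1
  have h3 : c ∈ spectrum ℂ (A + κ • K) := by
    have h4 := spectrum.sub_singleton_eq (A + κ • K) c
    rw [← Algebra.algebraMap_eq_smul_one, ← h4] at h1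
    obtain ⟨a, ha, b, hb, hab⟩ := h1
    rw [mem_singleton_iff] at hb
    subst hb
    have h5 : a = b := sub_eq_zero.1 hab
    rwa [← h5]
  rw [hc', mem_singleton_iff] at h3
  subst h3
  have h6 := spec_sub _ hc'
  have h7 : A - c • (1 : X →L[ℂ] X) + κ • K = A + κ • K - c • (1 : X →L[ℂ] X) := by abel
  rw [h7]
  exact h6.le

/-- all the spectra are one and the same point -/
theorem all_single (hX : ¬ FiniteDimensional ℂ X) (A K : X →L[ℂ] X) (hK : IsCompactOperator K)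
    {c : ℂ} (h : ∀ κ : ℂ, spectrum ℂ (A - c • (1 : X →L[ℂ] X) + κ • K) ⊆ {0}) (κ : ℂ) :
    spectrum ℂ (A + κ • K) = {c} := by
  have h1 : spectrum ℂ (A - c • (1 : X →L[ℂ] X) + κ • K) = {0} := by
    apply Set.Subset.antisymm (h κ)
    rw [singleton_subset_iff]
    have h2 := h 0
    rw [zero_smul, add_zero] at h2
    exact zero_mem hX h2 (hK.smul κ)
  have h3 : A + κ • K = (A - c • (1 : X →L[ℂ] X) + κ • K) - (-c) • (1 : X →L[ℂ] X) := by
    rw [neg_smul]; abel
  have h4 := spectrum.sub_singleton_eq (A - c • (1 : X →L[ℂ] X) + κ • K) (-c)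
  rw [h3, ← Algebra.algebraMap_eq_smul_one (-c), ← h4, h1]
  simp

/-- rank one: in the exceptional case there is a common invariant subspace -/
theorem common (T : X →L[ℂ] X) (hT : spectrum ℂ T ⊆ {0}) (F : X →L[ℂ] (Fin 1 → ℂ))
    (J : (Fin 1 → ℂ) →L[ℂ] X) (hne : J.comp F ≠ 0)
    (hdet : ∀ κ w : ℂ, (1 - κ • MM T F J w).det = 1) :
    ∃ V : Submodule ℂ X, IsClosed (V : Set X) ∧ V ≠ ⊥ ∧ V ≠ ⊤ ∧
      ∀ v ∈ V, T v ∈ V ∧ J.comp F v ∈ V := by
  have hM : ∀ w : ℂ, w ≠ 0 → F (RR T w (J (Pi.single 0 1))) = 0 := by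
    intro w hw
    have h1 := hdet 1 w
    rw [Matrix.det_fin_one, one_smul, Matrix.sub_apply, Matrix.one_apply_eq, sub_eq_self] at h1
    have h2 : w * F (RR T w (J (Pi.single 0 1))) 0 = 0 := by
      have h3 : MM T F J w 0 0 = w * F (RR T w (J (Pi.single 0 1))) 0 := by
        simp [MM, Mx]
      rw [← h3, h1]
    ext i
    rw [Fin.fin_one_eq_zero i]
    exact (mul_eq_zero.1 h2).resolve_left hw
  have hM' : ∀ w : ℂ, F (RR T w (J (Pi.single 0 1))) = 0 := by
    have hcont : Continuous (fun w => F (RR T w (J (Pi.single 0 1)))) :=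
      F.continuous.comp ((RR_diff T hT).continuous.clm_apply continuous_const)
    have h7 : ∀ w ∈ closure {w : ℂ | w ≠ 0}, F (RR T w (J (Pi.single 0 1))) = 0 := by
      intro w hw
      exact closure_minimal (fun z hz => hM z hz) (isClosed_singleton.preimage hcont) hw
    intro w
    apply h7
    have : Dense ({0}ᶜ : Set ℂ) := dense_compl_singleton 0
    exact this w
  refine ⟨VV T F, VV_closed T F, ?_, ?_, ?_⟩
  · intro hbot
    have h1 : J (Pi.single 0 1) ∈ VV T F := mem_VV.2 hM'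
    rw [hbot, Submodule.mem_bot] at h1
    apply hne
    ext x
    have h2 : F x = F x 0 • (Pi.single 0 1 : Fin 1 → ℂ) := by
      ext i
      rw [Fin.fin_one_eq_zero i]
      simp
    rw [ContinuousLinearMap.comp_apply, h2, map_smul, h1, smul_zero, _root_.zero_apply]
  · intro htop
    apply hne
    ext x
    have h1 : x ∈ VV T F := by rw [htop]; trivial
    have h2 := mem_VV.1 h1 0
    rw [RR_zero] at h2
    have h3 : F x = 0 := h2
    rw [ContinuousLinearMap.comp_apply, h3, map_zero, _root_.zero_apply]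
  · intro v hv
    refine ⟨VV_inv T hT F hv, ?_⟩
    have h2 := mem_VV.1 hv 0
    rw [RR_zero] at h2
    have h3 : F v = 0 := h2
    rw [ContinuousLinearMap.comp_apply, h3, map_zero]
    exact (VV T F).zero_mem

/-- finite rank -/
theorem finite_rank (hX : ¬ FiniteDimensional ℂ X) (A K : X →L[ℂ] X)
    (hA : IsTotallyDisconnected (spectrum ℂ A)) (hK : IsCompactOperator K)
    (hfd : FiniteDimensional ℂ (LinearMap.range (K : X →ₗ[ℂ] X)))
    (hn : Module.finrank ℂ (LinearMap.range (K : X →ₗ[ℂ] X)) = n) :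
    {κ : ℂ | ¬ HasHyper (A + κ • K)}.encard ≤ 2 * n ∨
      (IsNilpotent K ∧ (∃ c : ℂ, ∀ κ : ℂ, spectrum ℂ (A + κ • K) = {c}) ∧
        (n = 1 → ∃ V : Submodule ℂ X, IsClosed (V : Set X) ∧ V ≠ ⊥ ∧ V ≠ ⊤ ∧
          ∀ v ∈ V, A v ∈ V ∧ K v ∈ V)) := by
  by_contra hcon
  rw [or_comm, not_or, not_le] at hcon
  obtain ⟨hcon1, hcon2⟩ := hcon
  obtain ⟨s, hs, hsc⟩ := Set.exists_subset_encard_eq
    (show ((2 * n + 1 : ℕ) : ℕ∞) ≤ {κ : ℂ | ¬ HasHyper (A + κ • K)}.encard by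
      have := Order.add_one_le_of_lt hcon2
      push_cast
      exact this)
  have hsf : s.Finite := Set.finite_of_encard_eq_coe hsc
  obtain ⟨κ₀, hκ₀⟩ : s.Nonempty := by
    rw [← Set.encard_pos, hsc]
    exact_mod_cast Nat.succ_pos _
  obtain ⟨c, hT, hall⟩ := reduce hX A K hA hK (hs hκ₀)
  obtain ⟨F, J, hFJ⟩ := exists_FJ' K hfd hn
  set T : X →L[ℂ] X := A + κ₀ • K - c • (1 : X →L[ℂ] X) with hTdef
  have hshift : ∀ κ : ℂ, A - c • (1 : X →L[ℂ] X) + κ • K = T + (κ - κ₀) • J.comp F := by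
    intro κ
    rw [hTdef, ← hFJ, sub_smul]
    abel
  let s' : Finset ℂ := hsf.toFinset.image (fun κ => κ - κ₀)
  have hs'card : 2 * n + 1 ≤ s'.card := by
    rw [Finset.card_image_of_injective _ (sub_left_injective)]
    have h1 := hsf.encard_eq_coe_toFinset_card
    rw [hsc] at h1
    have h2 : 2 * n + 1 = hsf.toFinset.card := by exact_mod_cast h1
    omega
  have hs'0 : (0 : ℂ) ∈ s' := Finset.mem_image.2 ⟨κ₀, hsf.mem_toFinset.2 hκ₀, sub_self _⟩
  have hs'Q : ∀ κ ∈ s', spectrum ℂ (T + κ • J.comp F) ⊆ {0} := by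
    intro κ hκ
    obtain ⟨κ', h1, rfl⟩ := Finset.mem_image.1 hκ
    rw [← hshift]
    exact hall κ' (hs (hsf.mem_toFinset.1 h1))
  have hdet : ∀ κ w : ℂ, (1 - κ • MM T F J w).det = 1 := fun κ w =>
    count_det T hT F J s' hs'0 hs'card hs'Q κ w
  apply hcon1
  refine ⟨?_, ⟨c, ?_⟩, ?_⟩
  · rw [hFJ]
    exact nilp_of_det T hT F J hdet
  · apply all_single hX A K hK
    intro κ
    rw [hshift]
    exact count_all T hT F J s' hs'0 hs'card hs'Q _
  · intro hn1
    subst hn1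
    have hK0 : J.comp F ≠ 0 := by
      intro h0
      rw [← hFJ] at h0
      subst h0
      have : LinearMap.range ((0 : X →L[ℂ] X) : X →ₗ[ℂ] X) = ⊥ := by simp
      rw [this, finrank_bot] at hn
      exact absurd hn (by norm_num)
    obtain ⟨V, h1, h2, h3, h4⟩ := common T hT F J hK0 hdet
    refine ⟨V, h1, h2, h3, fun v hv => ?_⟩
    obtain ⟨h5, h6⟩ := h4 v hv
    have h7 : K v ∈ V := by rw [hFJ]; exact h6
    refine ⟨?_, h7⟩
    have h8 : A v = T v - κ₀ • K v + c • v := by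
      rw [hTdef]
      simp only [_root_.sub_apply, _root_.add_apply, _root_.smul_apply,
        ContinuousLinearMap.one_apply]
      abel
    rw [h8]
    exact V.add_mem (V.sub_mem h5 (V.smul_mem _ h7)) (V.smul_mem _ hv)

/-- no atoms, and locally bounded logarithmic potential -/
def BoundedPotential (m : Measure ℂ) : Prop :=
  (∀ s : ℂ, m {s} = 0) ∧
  ∀ R : ℝ, m (ball (0:ℂ) R) ≠ ⊤ ∧ ∃ C : NNReal, ∀ s : ℂ,
    ∫⁻ t in ball (0:ℂ) R, ENNReal.ofReal (Real.posLog ‖t - s‖⁻¹) ∂m ≤ C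

theorem null_QQ (T K : X →L[ℂ] X)
    (hcon : ¬ ((∀ κ : ℂ, spectrum ℂ (T + κ • K) ⊆ {0}) ∧ spectrum ℂ K ⊆ {0})) (m : Measure ℂ)
    (hm : BoundedPotential m) : m {κ : ℂ | spectrum ℂ (T + κ • K) ⊆ {0}} = 0 := by
  by_contra hne
  apply hcon
  have h1 : {κ : ℂ | spectrum ℂ (T + κ • K) ⊆ {0}} ⊆
      ⋃ n : ℕ, {κ : ℂ | spectrum ℂ (T + κ • K) ⊆ {0}} ∩ closedBall 0 (n : ℝ) := by
    intro κ hk
    rw [mem_iUnion]
    obtain ⟨n, hn⟩ := exists_nat_ge ‖κ‖
    exact ⟨n, hk, mem_closedBall_zero_iff.2 hn⟩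
  obtain ⟨n, hn⟩ : ∃ n : ℕ, m ({κ : ℂ | spectrum ℂ (T + κ • K) ⊆ {0}} ∩
      closedBall 0 (n : ℝ)) ≠ 0 := by
    by_contra h2
    push Not at h2
    exact hne (measure_mono_null h1 (measure_iUnion_null h2))
  obtain ⟨h3, C, hC⟩ := hm.2 (n + 1)
  have h4 : closedBall (0:ℂ) (n : ℝ) ⊆ ball 0 ((n : ℝ) + 1) := closedBall_subset_ball (by linarith)
  refine key _ K m hm.1 n (Nat.cast_nonneg n) (ne_top_of_le_ne_top h3 (measure_mono h4)) C
    C.2 (fun s => ?_) hn
  refine (lintegral_mono_set h4).trans ((hC s).trans (le_of_eq ?_))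
  rw [ENNReal.ofReal_coe_nnreal]

/-- compact operators -/
theorem typical (hX : ¬ FiniteDimensional ℂ X) (A : X →L[ℂ] X)
    (hA : IsTotallyDisconnected (spectrum ℂ A)) :
    ∃ E : Set (X →L[ℂ] X), IsClosed E ∧
      (∀ K : X →L[ℂ] X, IsCompactOperator K → K ∉ E → HasHyper (A + K)) ∧
      ∀ K₀ K₁ : X →L[ℂ] X, IsCompactOperator K₀ → IsCompactOperator K₁ →
        (spectrum ℂ K₁ = {0} ∧ ∀ κ : ℂ, K₀ + κ • K₁ ∈ E) ∨
        (IsClosed {κ : ℂ | K₀ + κ • K₁ ∈ E} ∧ dimH {κ : ℂ | K₀ + κ • K₁ ∈ E} = 0 ∧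
          ∀ m : Measure ℂ, BoundedPotential m → m {κ : ℂ | K₀ + κ • K₁ ∈ E} = 0) := by
  by_cases hS : ∀ K : X →L[ℂ] X, IsCompactOperator K → HasHyper (A + K)
  · refine ⟨∅, isClosed_empty, fun K hK _ => hS K hK, fun K₀ K₁ _ _ => Or.inr ⟨?_, ?_, ?_⟩⟩
    · simp
    · simp
    · simp
  push Not at hS
  obtain ⟨L, hLc, hL⟩ := hS
  obtain ⟨c, hc⟩ := single_of_not_hyper hX A L hA hLc hL
  have hT := spec_sub _ hc
  refine ⟨{K : X →L[ℂ] X | IsCompactOperator K ∧
    spectrum ℂ (A - c • (1 : X →L[ℂ] X) + K) ⊆ {0}}, QC_closed _, ?_, ?_⟩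
  · intro K hK hKE
    by_contra hno
    apply hKE
    refine ⟨hK, ?_⟩
    obtain ⟨c', hc'⟩ := single_of_not_hyper hX A K hA hK hno
    have h1 := zero_mem hX (K := K - L) hT.le (hK.sub hLc)
    have h2 : A + L - c • (1 : X →L[ℂ] X) + (K - L) = A + K - c • (1 : X →L[ℂ] X) := by abel
    rw [h2] at h1
    have h3 : c ∈ spectrum ℂ (A + K) := by
      have h4 := spectrum.sub_singleton_eq (A + K) c
      rw [← Algebra.algebraMap_eq_smul_one, ← h4] at h1
      obtain ⟨a, ha, b, hb, hab⟩ := h1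
      rw [mem_singleton_iff] at hb
      subst hb
      have h5 : a = b := sub_eq_zero.1 hab
      rwa [← h5]
    rw [hc', mem_singleton_iff] at h3
    subst h3
    have h6 := spec_sub _ hc'
    have h7 : A - c • (1 : X →L[ℂ] X) + K = A + K - c • (1 : X →L[ℂ] X) := by abel
    rw [h7]
    exact h6.le
  · intro K₀ K₁ hK₀ hK₁
    have hset : {κ : ℂ | K₀ + κ • K₁ ∈ {K : X →L[ℂ] X | IsCompactOperator K ∧
        spectrum ℂ (A - c • (1 : X →L[ℂ] X) + K) ⊆ {0}}} =
        {κ : ℂ | spectrum ℂ ((A - c • (1 : X →L[ℂ] X) + K₀) + κ • K₁) ⊆ {0}} := by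
      ext κ
      simp only [mem_ofPred_eq, add_assoc, and_iff_right_iff_imp]
      intro _
      exact hK₀.add (hK₁.smul κ)
    by_cases hcon : (∀ κ : ℂ, spectrum ℂ ((A - c • (1 : X →L[ℂ] X) + K₀) + κ • K₁) ⊆ {0}) ∧
        spectrum ℂ K₁ ⊆ {0}
    · left
      refine ⟨?_, ?_⟩
      · apply Set.Subset.antisymm hcon.2
        rw [singleton_subset_iff]
        intro hu
        apply hX
        have h1 : IsUnit K₁ := by
          have : IsUnit (algebraMap ℂ (X →L[ℂ] X) 0 - K₁) := hu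
          rw [map_zero, zero_sub] at this
          exact (IsUnit.neg_iff _).1 this
        exact finite_of_compact_unit hK₁ h1
      · intro κ
        have : κ ∈ {κ : ℂ | K₀ + κ • K₁ ∈ {K : X →L[ℂ] X | IsCompactOperator K ∧
            spectrum ℂ (A - c • (1 : X →L[ℂ] X) + K) ⊆ {0}}} := by
          rw [hset]
          exact hcon.1 κ
        exact this
    · right
      rw [hset]
      exact ⟨QQ_closed _ K₁ hK₁, dim_QQ _ K₁ hK₁ hcon, fun m hm => null_QQ _ K₁ hcon m hm⟩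

end Pool.Agent.H875.QN
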