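import Mathlib

/-!
# Polynomials which are small on a set carrying a measure with bounded logarithmic potential
-/

set_option autoImplicit false

open Polynomial MeasureTheory Set

namespace Pool.Agent.H875.QN

section
variable {ν : Measure ℂ} [IsFiniteMeasure ν] {R C : ℝ}

theorem int_one (hR0 : 0 ≤ R) (hR : ∀ᵐ t ∂ν, ‖t‖ ≤ R) (hC : 0 ≤ C)
    (hpot : ∀ ρ : ℂ, ∫⁻ t, ENNReal.ofReal (Real.posLog ‖t - ρ‖⁻¹) ∂ν ≤ ENNReal.ofReal C) (ρ : ℂ) :
    Integrable (fun t => Real.log ‖t - ρ‖) ν ∧ -C ≤ ∫ t, Real.log ‖t - ρ‖ ∂ν ∧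
      ∀ z : ℂ, z ≠ ρ → ν.real univ * Real.log ‖z - ρ‖ ≤
        (∫ t, Real.log ‖t - ρ‖ ∂ν) + (C + ν.real univ * Real.log (‖z‖ + R + 1)) := by
  have hm1 : Measurable (fun t : ℂ => Real.posLog ‖t - ρ‖) :=
    Real.continuous_posLog.measurable.comp (by fun_prop)
  have hm2 : Measurable (fun t : ℂ => Real.posLog ‖t - ρ‖⁻¹) :=
    Real.continuous_posLog.measurable.comp (by fun_prop)
  have h1 : Integrable (fun t => Real.posLog ‖t - ρ‖) ν := by
    refine Integrable.of_bound hm1.aestronglyMeasurable (Real.posLog (R + ‖ρ‖)) ?_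
    filter_upwards [hR] with t ht
    rw [Real.norm_of_nonneg Real.posLog_nonneg]
    apply Real.posLog_le_posLog (norm_nonneg _)
    exact (norm_sub_le _ _).trans (by linarith)
  have h2 : Integrable (fun t => Real.posLog ‖t - ρ‖⁻¹) ν := by
    refine ⟨hm2.aestronglyMeasurable, ?_⟩
    rw [hasFiniteIntegral_iff_ofReal (Filter.Eventually.of_forall fun t => Real.posLog_nonneg)]
    exact (hpot ρ).trans_lt ENNReal.ofReal_lt_top
  have h3 : (fun t => Real.log ‖t - ρ‖) = fun t => Real.posLog ‖t - ρ‖ - Real.posLog ‖t - ρ‖⁻¹ := by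
    ext t
    rw [Real.posLog_sub_posLog_inv]
  have h4 : ∫ t, Real.posLog ‖t - ρ‖⁻¹ ∂ν ≤ C := by
    rw [integral_eq_lintegral_of_nonneg_ae (Filter.Eventually.of_forall fun t => Real.posLog_nonneg)
      hm2.aestronglyMeasurable]
    exact ENNReal.toReal_le_of_le_ofReal hC (hpot ρ)
  have h5 : ∫ t, Real.log ‖t - ρ‖ ∂ν =
      (∫ t, Real.posLog ‖t - ρ‖ ∂ν) - ∫ t, Real.posLog ‖t - ρ‖⁻¹ ∂ν := by
    rw [h3]
    exact integral_sub h1 h2
  refine ⟨by rw [h3]; exact h1.sub h2, ?_, ?_⟩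
  · rw [h5]
    have : 0 ≤ ∫ t, Real.posLog ‖t - ρ‖ ∂ν := integral_nonneg fun t => Real.posLog_nonneg
    linarith
  · intro z hz
    have hz0 : 0 < ‖z - ρ‖ := norm_pos_iff.2 (sub_ne_zero.2 hz)
    set q : ℝ := Real.log (max 1 (‖ρ‖ - R)) with hq
    have h6 : ν.real univ * q ≤ ∫ t, Real.posLog ‖t - ρ‖ ∂ν := by
      have h7 : ∫ _t, q ∂ν = ν.real univ * q := by
        rw [integral_const, smul_eq_mul]
      rw [← h7]
      apply integral_mono_ae (integrable_const _) h1
      filter_upwards [hR] with t ht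
      show q ≤ Real.posLog ‖t - ρ‖
      rw [hq, Real.posLog_eq_log_max_one (norm_nonneg _)]
      apply Real.log_le_log (by positivity)
      apply max_le_max le_rfl
      have := norm_sub_norm_le ρ t
      rw [norm_sub_rev] at this
      linarith
    have h8 : Real.log ‖z - ρ‖ ≤ q + Real.log (‖z‖ + R + 1) := by
      have hzz := norm_nonneg z
      rw [hq, ← Real.log_mul (by positivity) (by positivity)]
      apply Real.log_le_log hz0
      refine (norm_sub_le z ρ).trans ?_
      have h9 : (1 : ℝ) ≤ max 1 (‖ρ‖ - R) := le_max_left _ _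
      have h10 : ‖ρ‖ - R ≤ max 1 (‖ρ‖ - R) := le_max_right _ _
      nlinarith [mul_le_mul_of_nonneg_right h9 (by positivity : 0 ≤ ‖z‖ + R)]
    have h11 := mul_le_mul_of_nonneg_left h8 (measureReal_nonneg (μ := ν) (s := univ))
    rw [mul_add] at h11
    rw [h5]
    linarith

theorem int_mult (hR0 : 0 ≤ R) (hR : ∀ᵐ t ∂ν, ‖t‖ ≤ R) (hC : 0 ≤ C)
    (hpot : ∀ ρ : ℂ, ∫⁻ t, ENNReal.ofReal (Real.posLog ‖t - ρ‖⁻¹) ∂ν ≤ ENNReal.ofReal C)
    (s : Multiset ℂ) :
    Integrable (fun t => (s.map fun ρ => Real.log ‖t - ρ‖).sum) ν ∧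
    -(s.card * C) ≤ ∫ t, (s.map fun ρ => Real.log ‖t - ρ‖).sum ∂ν ∧
      ∀ z : ℂ, z ∉ s → ν.real univ * (s.map fun ρ => Real.log ‖z - ρ‖).sum ≤
        (∫ t, (s.map fun ρ => Real.log ‖t - ρ‖).sum ∂ν) +
          s.card * (C + ν.real univ * Real.log (‖z‖ + R + 1)) := by
  induction s using Multiset.induction_on with
  | empty => simp
  | cons ρ s ih =>
    obtain ⟨i1, i2, i3⟩ := ih
    obtain ⟨j1, j2, j3⟩ := int_one (ν := ν) hR0 hR hC hpot ρ
    have e : ∫ t, (((ρ ::ₘ s).map fun ρ => Real.log ‖t - ρ‖).sum) ∂ν =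
        (∫ t, Real.log ‖t - ρ‖ ∂ν) + ∫ t, (s.map fun ρ => Real.log ‖t - ρ‖).sum ∂ν := by
      rw [← integral_add j1 i1]
      simp only [Multiset.map_cons, Multiset.sum_cons]
    refine ⟨?_, ?_, ?_⟩
    · simp only [Multiset.map_cons, Multiset.sum_cons]
      exact j1.add i1
    · rw [e, Multiset.card_cons]
      push_cast
      linarith
    · intro z hz
      rw [Multiset.mem_cons, not_or] at hz
      have h1 := i3 z hz.2
      have h2 := j3 z hz.1
      rw [e, Multiset.card_cons, Multiset.map_cons, Multiset.sum_cons, mul_add]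
      push_cast
      linarith

theorem log_norm_prod (s : Multiset ℂ) (z : ℂ) (hz : z ∉ s) :
    Real.log ‖(s.map fun ρ => z - ρ).prod‖ = (s.map fun ρ => Real.log ‖z - ρ‖).sum := by
  induction s using Multiset.induction_on with
  | empty => simp
  | cons ρ s ih =>
    rw [Multiset.mem_cons, not_or] at hz
    have h1 : (s.map fun ρ => z - ρ).prod ≠ 0 := by
      apply Multiset.prod_ne_zero
      rw [Multiset.mem_map]
      rintro ⟨ρ', h1, h2⟩
      exact hz.2 (by rwa [← sub_eq_zero.1 h2] at h1)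
    rw [Multiset.map_cons, Multiset.prod_cons, norm_mul, Real.log_mul, ih hz.2, Multiset.map_cons,
      Multiset.sum_cons]
    · exact norm_ne_zero_iff.2 (sub_ne_zero.2 hz.1)
    · exact norm_ne_zero_iff.2 h1

/-- **Polynomial inequality.** -/
theorem poly_bound (hR0 : 0 ≤ R) (hR : ∀ᵐ t ∂ν, ‖t‖ ≤ R) (hat : ∀ ρ : ℂ, ν {ρ} = 0) (hC : 0 ≤ C)
    (hpot : ∀ ρ : ℂ, ∫⁻ t, ENNReal.ofReal (Real.posLog ‖t - ρ‖⁻¹) ∂ν ≤ ENNReal.ofReal C)
    (ha : 0 < ν.real univ) (p : ℂ[X]) (m : ℕ) (hm : p.natDegree ≤ m) {δ : ℝ} (hδ : 0 < δ)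
    (hp : ∀ᵐ t ∂ν, ‖p.eval t‖ ≤ δ ^ m) :
    (∀ z : ℂ, ‖p.eval z‖ ≤
      (Real.exp ((C + ν.real univ * Real.log (‖z‖ + R + 1)) / ν.real univ) * δ) ^ m) ∧
    ‖p.coeff m‖ ≤ (Real.exp (C / ν.real univ) * δ) ^ m := by
  set a : ℝ := ν.real univ with haa
  rcases eq_or_ne p 0 with rfl | hp0
  · simp only [eval_zero, norm_zero, coeff_zero]
    exact ⟨fun z => by positivity, by positivity⟩
  have hlc : p.leadingCoeff ≠ 0 := leadingCoeff_ne_zero.2 hp0
  have hfac : ∀ z, p.eval z = p.leadingCoeff * (p.roots.map fun ρ => z - ρ).prod := by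
    intro z
    have h1 := (IsAlgClosed.splits p).eq_prod_roots
    conv_lhs => rw [h1]
    rw [eval_mul, eval_C, eval_multiset_prod, Multiset.map_map]
    simp
  have hcard : p.roots.card = p.natDegree := IsAlgClosed.card_roots_eq_natDegree
  have hlog : ∀ z, z ∉ p.roots → Real.log ‖p.eval z‖ =
      Real.log ‖p.leadingCoeff‖ + (p.roots.map fun ρ => Real.log ‖z - ρ‖).sum := by
    intro z hz
    rw [hfac z, norm_mul, Real.log_mul (norm_ne_zero_iff.2 hlc), log_norm_prod _ _ hz]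
    rw [norm_ne_zero_iff]
    apply Multiset.prod_ne_zero
    rw [Multiset.mem_map]
    rintro ⟨ρ', h1, h2⟩
    exact hz (by rwa [← sub_eq_zero.1 h2] at h1)
  obtain ⟨i1, i2, i3⟩ := int_mult (ν := ν) hR0 hR hC hpot p.roots
  have hae : ∀ᵐ t ∂ν, t ∉ p.roots := by
    have h1 : ν (p.roots.toFinset : Set ℂ) = 0 := by
      rw [← Set.biUnion_of_singleton (p.roots.toFinset : Set ℂ)]
      exact (measure_biUnion_null_iff (Finset.countable_toSet _)).2 fun ρ _ => hat ρ
    rw [ae_iff]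
    refine measure_mono_null ?_ h1
    intro t ht
    simpa using ht
  have hint : a * Real.log ‖p.leadingCoeff‖ +
      ∫ t, (p.roots.map fun ρ => Real.log ‖t - ρ‖).sum ∂ν ≤ a * (m * Real.log δ) := by
    have e1 : ∫ _t, Real.log ‖p.leadingCoeff‖ ∂ν = a * Real.log ‖p.leadingCoeff‖ := by
      rw [integral_const, smul_eq_mul]
    have e2 : ∫ _t, (m * Real.log δ : ℝ) ∂ν = a * (m * Real.log δ) := by
      rw [integral_const, smul_eq_mul]
    rw [← e1, ← e2, ← integral_add (integrable_const _) i1]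
    apply integral_mono_ae ((integrable_const _).add i1) (integrable_const _)
    filter_upwards [hae, hp] with t h1 h2
    show Real.log ‖p.leadingCoeff‖ + (p.roots.map fun ρ => Real.log ‖t - ρ‖).sum ≤ m * Real.log δ
    rw [← hlog t h1, ← Real.log_pow]
    apply Real.log_le_log _ h2
    rw [norm_pos_iff, hfac t]
    refine mul_ne_zero hlc ?_
    apply Multiset.prod_ne_zero
    rw [Multiset.mem_map]
    rintro ⟨ρ', h3, h4⟩
    exact h1 (by rwa [← sub_eq_zero.1 h4] at h3)
  have hdm : (p.roots.card : ℝ) ≤ m := by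
    rw [hcard]
    exact_mod_cast hm
  constructor
  · intro z
    set D : ℝ := C + a * Real.log (‖z‖ + R + 1) with hD
    have hD0 : 0 ≤ D := by
      have : 0 ≤ Real.log (‖z‖ + R + 1) := Real.log_nonneg (by
        have := norm_nonneg z
        linarith)
      positivity
    rcases eq_or_ne (p.eval z) 0 with h0 | h0
    · rw [h0, norm_zero]
      positivity
    · have hz : z ∉ p.roots := by
        rw [mem_roots hp0]
        exact h0
      have h1 := i3 z hz
      have h2 : a * Real.log ‖p.eval z‖ ≤ m * (a * Real.log δ + D) := by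
        rw [hlog z hz, mul_add]
        have h3 : (p.roots.card : ℝ) * D ≤ m * D := mul_le_mul_of_nonneg_right hdm hD0
        linarith
      have h4 : Real.log ‖p.eval z‖ ≤ m * (D / a + Real.log δ) := by
        have : m * (D / a + Real.log δ) = m * (a * Real.log δ + D) / a := by
          field_simp
          ring
        rw [this, le_div_iff₀ ha, mul_comm]
        exact h2
      rw [← Real.exp_log (norm_pos_iff.2 h0)]
      refine (Real.exp_le_exp.2 h4).trans (le_of_eq ?_)
      rw [Real.exp_nat_mul, Real.exp_add, Real.exp_log hδ]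
  · rcases lt_or_eq_of_le hm with h | h
    · rw [coeff_eq_zero_of_natDegree_lt h, norm_zero]
      positivity
    · rw [← h, coeff_natDegree]
      have hdc : (p.roots.card : ℝ) = m := by rw [hcard, h]
      have h2 : a * Real.log ‖p.leadingCoeff‖ ≤ m * (a * Real.log δ + C) := by
        rw [hdc] at i2
        linarith
      have h4 : Real.log ‖p.leadingCoeff‖ ≤ m * (C / a + Real.log δ) := by
        have : m * (C / a + Real.log δ) = m * (a * Real.log δ + C) / a := by
          field_simp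
          ring
        rw [this, le_div_iff₀ ha, mul_comm]
        exact h2
      rw [← Real.exp_log (norm_pos_iff.2 hlc)]
      refine (Real.exp_le_exp.2 h4).trans (le_of_eq ?_)
      rw [h, Real.exp_nat_mul, Real.exp_add, Real.exp_log hδ]

end

end Pool.Agent.H875.QN
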